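import Pool.Agent.Lib.MP_93e743_kp.Ctx

/-!
Bounds in the second case.
-/

namespace Pool.Agent.Lib.MP_93e743_co

open Finset

set_option linter.unusedSectionVars false

variable {ι X : Type*} [Fintype ι] [Fintype X] [DecidableEq ι] [DecidableEq X]

namespace KB

variable {A : ι → Finset X} {n : ι → ℕ} {x y g : ℕ} {i0 : ι} {k p m d : ℕ} {l : ℤ}
  {t : X → X → ℤ}

theorem K_le_d (c : KB A n x y g i0 k p m d l t) :
    |((x : ℤ) + y) * l - d * x| ≤ 4 * d ^ 2 := by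
  have hl0 := c.T.l0
  have hl1 := c.T.l1
  have hy : (0 : ℤ) < y := by exact_mod_cast c.sys.hy
  have hxy : (y : ℤ) < x := by exact_mod_cast c.sys.hxy
  have e : ((x : ℤ) + y) * l - d * x = l * y - (d - l) * x := by ring
  have hq : (0 : ℤ) < d := by linarith
  rcases le_or_gt (4 * (d : ℤ)) (x + y) with h4 | h4
  · have h1 := c.sys.ratio_bound c.hmZ c.hm0 c.T
    have hone : 2 * ((x : ℤ) + y) < (g + 2) * d := by exact_mod_cast c.one
    rw [e] at h1
    have h2 := ratio_simple hl0 hl1 hone h4 h1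
    rw [e]
    nlinarith [sq_nonneg (d - 2 * l : ℤ)]
  · rw [e, abs_le]
    constructor
    · nlinarith [mul_pos hl0 hy]
    · nlinarith [mul_pos (sub_pos.mpr hl1) (hy.trans hxy)]

/-- Row BB. -/
theorem K_le (c : KB A n x y g i0 k p m d l t) :
    |((x : ℤ) + y) * l - d * x| ≤ 4 * k ^ 2 := by
  have h1 := c.K_le_d
  have h2 : (d : ℤ) ≤ k := by exact_mod_cast c.hdle
  have h3 : (d : ℤ) ^ 2 ≤ k ^ 2 := pow_le_pow_left₀ (by positivity) h2 2
  linarith

theorem J_ge (c : KB A n x y g i0 k p m d l t) (hp : k ^ 3 ≤ p) :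
    (d : ℤ) * (x + y) - 2 * d + 4 ≤ 2 * (g * |((x : ℤ) + y) * l - d * x|) := by
  have hl0 := c.T.l0
  have hl1 := c.T.l1
  have hy : (0 : ℤ) < y := by exact_mod_cast c.sys.hy
  have hxy : (y : ℤ) < x := by exact_mod_cast c.sys.hxy
  have hg : (0 : ℤ) < g := by exact_mod_cast c.sys.hg
  have hd3 : (3 : ℤ) ≤ d := by exact_mod_cast c.hd3
  have hdk : (d : ℤ) ≤ k := by exact_mod_cast c.hdle
  have hone : 2 * ((x : ℤ) + y) < (g + 2) * d := by exact_mod_cast c.one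
  have hpZ : (k : ℤ) ^ 3 ≤ p := by exact_mod_cast hp
  have hlt : (k : ℤ) * p < g * (x + y) + 1 := by exact_mod_cast c.lt_v
  set K : ℤ := ((x : ℤ) + y) * l - d * x with hK
  have hs : ((x : ℤ) + y) ∣ g * K + 2 * l - d := by
    have h1 := c.l_mod
    have e : g * K + 2 * l - d = ((x : ℤ) + y) * (g * l) + (2 * l - d * (g * x + 1)) := by
      rw [hK]; ring
    rw [e]
    exact dvd_add (Dvd.intro _ rfl) h1
  have hqd : (d : ℤ) ∣ g * K + 2 * l - d := by
    have h1 : (d : ℤ) ∣ (g : ℤ) * x + 1 := by exact_mod_cast c.dvd_r1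
    have h2 : (d : ℤ) ∣ (g : ℤ) * y + 1 := by exact_mod_cast c.dvd_r2
    have e : g * K + 2 * l - d = l * ((g : ℤ) * x + 1) + l * ((g : ℤ) * y + 1) -
        d * (g * x + 1) := by
      rw [hK]; ring
    rw [e]
    exact dvd_sub (dvd_add (h1.mul_left _) (h2.mul_left _)) (Dvd.intro _ rfl)
  have hqs : (d : ℤ) * (x + y) ∣ 2 * (g * K + 2 * l - d) := c.mul_dvd hqd hs
  have hKabs : (g : ℤ) * |K| = |g * K| := by rw [abs_mul, abs_of_pos hg]
  rw [hKabs]
  by_cases hJ : g * K + 2 * l - d = 0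
  · exfalso
    have hodd : (d : ℤ) - 2 * l ≠ 0 := by
      intro h0
      exact c.l_ne (by linarith)
    have hgK : g * K = d - 2 * l := by linarith
    have hK0 : K ≠ 0 := by
      intro h0
      rw [h0, mul_zero] at hgK
      exact hodd hgK.symm
    have hK1 : 1 ≤ |K| := Int.one_le_abs hK0
    have h5 : |g * K| ≤ d - 2 := by
      rw [hgK, abs_le]
      constructor <;> linarith
    have h6 : (g : ℤ) ≤ d - 2 := by
      rw [← hKabs] at h5
      nlinarith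
    have h7 : 2 * ((x : ℤ) + y) < d * d := by nlinarith
    have h8 : 2 * ((g : ℤ) * (x + y)) ≤ (d - 2) * (d * d) := by nlinarith
    have h9 : (k : ℤ) * k ^ 3 ≤ k * p := mul_le_mul_of_nonneg_left hpZ (by linarith)
    have h10 : (d : ℤ) ^ 3 ≤ k ^ 3 := pow_le_pow_left₀ (by linarith) hdk 3
    have h11 : (k : ℤ) ^ 3 * 3 ≤ k ^ 3 * k := mul_le_mul_of_nonneg_left (by linarith) (by positivity)
    nlinarith [mul_pos (show (0 : ℤ) < d by linarith) (show (0 : ℤ) < d by linarith)]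
  · have h1 : (d : ℤ) * (x + y) ≤ |2 * (g * K + 2 * l - d)| :=
      Int.le_of_dvd (abs_pos.mpr (mul_ne_zero two_ne_zero hJ)) ((dvd_abs _ _).mpr hqs)
    have h0 : |2 * (g * K + 2 * l - d)| = 2 * |g * K + 2 * l - d| := by
      rw [abs_mul]; norm_num
    rw [h0] at h1
    have h2 : |g * K + 2 * l - d| ≤ |g * K| + |2 * l - d| := by
      have := abs_add_le (g * K) (2 * l - d)
      have e : g * K + (2 * l - d) = g * K + 2 * l - d := by ring
      rwa [e] at this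
    have h3 : |2 * l - (d : ℤ)| ≤ d - 2 := by
      rw [abs_le]
      constructor <;> linarith
    linarith

theorem y_sq_le (c : KB A n x y g i0 k p m d l t) (hp : k ^ 3 ≤ p) :
    y ^ 2 ≤ 16 * k ^ 3 * p := by
  have hJ := c.J_ge hp
  have hK := c.K_le
  have hy : (0 : ℤ) < y := by exact_mod_cast c.sys.hy
  have hxy : (y : ℤ) < x := by exact_mod_cast c.sys.hxy
  have hg : (0 : ℤ) < g := by exact_mod_cast c.sys.hg
  have hd3 : (3 : ℤ) ≤ d := by exact_mod_cast c.hd3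
  have hlt : (y : ℤ) * (g * y + 1) < (x + y) * (k * p) := by exact_mod_cast c.y_lt
  have hp0 : (0 : ℤ) < p := by exact_mod_cast c.hp.pos
  have hk0 : (0 : ℤ) < k := by exact_mod_cast c.hk0
  have hds : (d : ℤ) + 2 ≤ x + y := by
    have h2 := c.hmZ
    have h3 : (1 : ℤ) ≤ m := by exact_mod_cast c.hm1
    nlinarith
  have h1 : (g : ℤ) * |((x : ℤ) + y) * l - d * x| ≤ g * (4 * k ^ 2) :=
    mul_le_mul_of_nonneg_left hK hg.le
  have h2 : ((x : ℤ) + y) ≤ 8 * k ^ 2 * g := by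
    have h3 : (x : ℤ) + y ≤ d * (x + y) - 2 * d + 4 := by
      nlinarith [mul_nonneg (by linarith : (0 : ℤ) ≤ d - 1) (by linarith : (0 : ℤ) ≤ (x : ℤ) + y - 2)]
    linarith
  have h4 : (g : ℤ) * (y ^ 2) < g * (8 * k ^ 3 * p) := by
    have h5 : ((x : ℤ) + y) * (k * p) ≤ 8 * k ^ 2 * g * (k * p) :=
      mul_le_mul_of_nonneg_right h2 (by positivity)
    nlinarith
  have h6 := lt_of_mul_lt_mul_left h4 hg.le
  have h8 : (0 : ℤ) ≤ k ^ 3 * p := by positivity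
  have h7 : (y : ℤ) ^ 2 ≤ 16 * k ^ 3 * p := by linarith
  exact_mod_cast h7

theorem x_le (c : KB A n x y g i0 k p m d l t) : x ≤ k * y + 4 * k ^ 2 := by
  have hK := (abs_le.mp c.K_le).1
  have hl0 := c.T.l0
  have hl1 := c.T.l1
  have hdk : (d : ℤ) ≤ k := by exact_mod_cast c.hdle
  have hy : (0 : ℤ) < y := by exact_mod_cast c.sys.hy
  have hxy : (y : ℤ) < x := by exact_mod_cast c.sys.hxy
  have h1 : (x : ℤ) ≤ x * (d - l) := by nlinarith
  have h2 : (x : ℤ) * (d - l) = l * y - (((x : ℤ) + y) * l - d * x) := by ring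
  have h3 : l * (y : ℤ) ≤ k * y := mul_le_mul_of_nonneg_right (by linarith) hy.le
  have h4 : (x : ℤ) ≤ k * y + 4 * k ^ 2 := by linarith
  exact_mod_cast h4

theorem s_lt (c : KB A n x y g i0 k p m d l t) (hp : 100 * k ^ 5 ≤ p) : x + y < p := by
  have hq3 := c.hk3
  have hp2 : k ^ 3 ≤ p := by
    have : k ^ 3 ≤ k ^ 5 := Nat.pow_le_pow_right (by omega) (by norm_num)
    omega
  have h1 := c.y_sq_le hp2
  have h2 := c.x_le
  by_contra hcon
  rw [not_lt] at hcon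
  have h1' : (y : ℝ) ^ 2 ≤ 16 * k ^ 3 * p := by exact_mod_cast h1
  have h2' : (x : ℝ) ≤ k * y + 4 * k ^ 2 := by exact_mod_cast h2
  have h3' : (p : ℝ) ≤ x + y := by exact_mod_cast hcon
  have hp' : 100 * (k : ℝ) ^ 5 ≤ p := by exact_mod_cast hp
  have hq' : (3 : ℝ) ≤ k := by exact_mod_cast hq3
  have hy0 : (0 : ℝ) ≤ y := Nat.cast_nonneg _
  have hp0 : (0 : ℝ) < p := by exact_mod_cast c.hp.pos
  have hq2 : (27 : ℝ) ≤ (k : ℝ) ^ 3 := by
    have := pow_le_pow_left₀ (by norm_num : (0 : ℝ) ≤ 3) hq' 3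
    norm_num at this
    exact this
  have h5 : 4 * (k : ℝ) ^ 2 ≤ p / 90 := by
    have h6 : (k : ℝ) ^ 5 = k ^ 3 * k ^ 2 := by ring
    have h7 : 27 * (k : ℝ) ^ 2 ≤ k ^ 3 * k ^ 2 := mul_le_mul_of_nonneg_right hq2 (by positivity)
    nlinarith
  have h6 : 89 / 90 * (p : ℝ) ≤ (k + 1) * y := by linarith
  have h7 : (89 / 90 * (p : ℝ)) ^ 2 ≤ ((k + 1) * y) ^ 2 :=
    pow_le_pow_left₀ (by positivity) h6 2
  have h8 : ((k : ℝ) + 1) ^ 2 ≤ 16 / 9 * k ^ 2 := by nlinarith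
  have h9 : (((k : ℝ) + 1) * y) ^ 2 ≤ 16 / 9 * k ^ 2 * (16 * k ^ 3 * p) := by
    rw [mul_pow]
    exact mul_le_mul h8 h1' (by positivity) (by positivity)
  have h10 : (p : ℝ) * ((89 / 90) ^ 2 * p) ≤ p * (256 / 9 * k ^ 5) := by
    have e1 : (p : ℝ) * ((89 / 90) ^ 2 * p) = (89 / 90 * (p : ℝ)) ^ 2 := by ring
    have e2 : 16 / 9 * (k : ℝ) ^ 2 * (16 * (k : ℝ) ^ 3 * p) = p * (256 / 9 * (k : ℝ) ^ 5) := by
      ring
    rw [e1, ← e2]
    exact h7.trans h9
  have h11 := le_of_mul_le_mul_left h10 hp0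
  have h12 : (0 : ℝ) < (k : ℝ) ^ 5 := by positivity
  nlinarith

end KB

end Pool.Agent.Lib.MP_93e743_co
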