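import Pool.Agent.Lib.MP_93e743_qp.Theta
import Pool.Agent.Lib.MP_93e743_qp.PInt

/-!
The two contexts for `λ = k p`: `p ∣ x - y` (`KA`) and `p ∤ x - y` (`KB`).
-/

namespace Pool.Agent.Lib.MP_93e743_co

open Finset

set_option linter.unusedSectionVars false

variable {ι X : Type*} [Fintype ι] [Fintype X] [DecidableEq ι] [DecidableEq X]

/-- The data in the case `p ∣ x - y = m p = m' d`. -/
structure KA (A : ι → Finset X) (n : ι → ℕ) (x y g : ℕ) (i0 : ι) (k p m d m' : ℕ) (l : ℤ)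
    (t : X → X → ℤ) : Prop where
  sys : IntSys A n x y g
  hp : p.Prime
  hx : x = y + m * p
  hm1 : 1 ≤ m
  hmk : m < k
  root : n i0 = k * p
  out : ∃ P, P ∉ A i0
  hmd : m * p = m' * d
  hpd : p ≤ d
  T : TMat A x y g d m' l t
  two : 64 * (x + y) < (g + 5) ^ 4

/-- The data in the case `p ∤ x - y = m d`, `d ∣ k`. -/
structure KB (A : ι → Finset X) (n : ι → ℕ) (x y g : ℕ) (i0 : ι) (k p m d : ℕ) (l : ℤ)
    (t : X → X → ℤ) : Prop where
  sys : IntSys A n x y g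
  hp : p.Prime
  hd3 : 3 ≤ d
  hdk : d ∣ k
  hk0 : 0 < k
  hkp : k < p
  hx : x = y + m * d
  hm1 : 1 ≤ m
  hpm : ¬ p ∣ m
  root : n i0 = k * p
  out : ∃ P, P ∉ A i0
  inn : ∃ P, P ∈ A i0
  T : TMat A x y g d m l t
  one : 2 * (x + y) < (g + 2) * d

namespace KA

variable {A : ι → Finset X} {n : ι → ℕ} {x y g : ℕ} {i0 : ι} {k p m d m' : ℕ} {l : ℤ}
  {t : X → X → ℤ}

lemma hmZ (c : KA A n x y g i0 k p m d m' l t) : (x : ℤ) - y = m' * d := by
  rw [c.hx, c.hmd]; push_cast; ring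

lemma hmp (c : KA A n x y g i0 k p m d m' l t) : (x : ℤ) - y = m * p := by
  rw [c.hx]; push_cast; ring

lemma hm0 (c : KA A n x y g i0 k p m d m' l t) : m' ≠ 0 := by
  intro h0
  have h1 := c.hmd
  rw [h0, zero_mul] at h1
  have h2 := c.hp.pos
  have h3 := c.hm1
  have : 0 < m * p := Nat.mul_pos (by omega) h2
  omega

/-- `d ≤ m p`. -/
lemma hdm (c : KA A n x y g i0 k p m d m' l t) : d ≤ m * p := by
  rw [c.hmd]
  exact Nat.le_mul_of_pos_left d (Nat.pos_of_ne_zero c.hm0)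

lemma hk2 (c : KA A n x y g i0 k p m d m' l t) : 2 ≤ k := by
  have := c.hm1; have := c.hmk; omega

lemma dvd_n (c : KA A n x y g i0 k p m d m' l t) (i : ι) : p ∣ n i :=
  (c.sys.dvd_all c.hx i0 (by rw [c.root]; exact Dvd.intro_left _ rfl)).1 i

lemma dvd_r1 (c : KA A n x y g i0 k p m d m' l t) : p ∣ g * x + 1 :=
  (c.sys.dvd_all c.hx i0 (by rw [c.root]; exact Dvd.intro_left _ rfl)).2.1

lemma dvd_r2 (c : KA A n x y g i0 k p m d m' l t) : p ∣ g * y + 1 :=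
  (c.sys.dvd_all c.hx i0 (by rw [c.root]; exact Dvd.intro_left _ rfl)).2.2.1

/-- `m p e = s k p - y r₂`. -/
lemma e_eq (c : KA A n x y g i0 k p m d m' l t) :
    (m : ℤ) * p * (((A i0)ᶜ.card : ℕ) : ℤ) = (x + y) * (k * p) - y * (g * y + 1) := by
  have h1 := c.sys.compl_eq i0
  rw [c.hmp, c.root] at h1
  rw [h1]; push_cast; ring

/-- `n i ≡ k p` modulo `m p`. -/
lemma cong (c : KA A n x y g i0 k p m d m' l t) (i : ι) : ((m : ℤ) * p) ∣ n i - k * p := by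
  have h1 := c.sys.K3 i0 i
  rw [c.hmp, c.root] at h1
  have e : ((k * p : ℕ) : ℤ) = k * p := by push_cast; ring
  rwa [e] at h1

/-- `r₂ ≡ 2 k p` modulo `m p`. -/
lemma cong_r (c : KA A n x y g i0 k p m d m' l t) :
    ((m : ℤ) * p) ∣ 2 * (k * p) - (g * y + 1) := by
  have h1 := c.sys.dvd_add_sub' i0 i0
  rw [c.hmp, c.root] at h1
  have e : (((k * p : ℕ) : ℤ) + ((k * p : ℕ) : ℤ) - (g * y + 1)) = 2 * (k * p) - (g * y + 1) := by
    push_cast; ring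
  rwa [e] at h1

lemma y_lt (c : KA A n x y g i0 k p m d m' l t) : y * (g * y + 1) < (x + y) * (k * p) := by
  obtain ⟨P, hP⟩ := c.out
  have := c.sys.y_lt i0 hP
  rwa [c.root] at this

/-- If `m ∣ k` then `m p` divides all the numbers `n i` and `r₂`. -/
lemma dvd_of_dvd (c : KA A n x y g i0 k p m d m' l t) (h : m ∣ k) :
    (∀ i, m * p ∣ n i) ∧ m * p ∣ g * y + 1 := by
  obtain ⟨u, hu⟩ := h
  have h1 : ((m : ℤ) * p) ∣ k * p := ⟨u, by rw [hu]; push_cast; ring⟩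
  constructor
  · intro i
    have h2 := dvd_add (c.cong i) h1
    have e : (n i : ℤ) - k * p + k * p = n i := by ring
    rw [e] at h2
    exact_mod_cast h2
  · have h2 := dvd_sub (h1.mul_left 2) c.cong_r
    have e : 2 * ((k : ℤ) * p) - (2 * (k * p) - (g * y + 1)) = g * y + 1 := by ring
    rw [e] at h2
    exact_mod_cast h2

end KA

namespace KB

variable {A : ι → Finset X} {n : ι → ℕ} {x y g : ℕ} {i0 : ι} {k p m d : ℕ} {l : ℤ}
  {t : X → X → ℤ}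

lemma hmZ (c : KB A n x y g i0 k p m d l t) : (x : ℤ) - y = m * d := by
  rw [c.hx]; push_cast; ring

lemma hm0 (c : KB A n x y g i0 k p m d l t) : m ≠ 0 := by have := c.hm1; omega

lemma hdle (c : KB A n x y g i0 k p m d l t) : d ≤ k := Nat.le_of_dvd c.hk0 c.hdk

lemma hk3 (c : KB A n x y g i0 k p m d l t) : 3 ≤ k := c.hd3.trans c.hdle

lemma dvd_root (c : KB A n x y g i0 k p m d l t) : d ∣ n i0 := by
  rw [c.root]; exact c.hdk.mul_right p

lemma dvd_n (c : KB A n x y g i0 k p m d l t) (i : ι) : d ∣ n i :=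
  (c.sys.dvd_all c.hx i0 c.dvd_root).1 i

lemma dvd_r1 (c : KB A n x y g i0 k p m d l t) : d ∣ g * x + 1 :=
  (c.sys.dvd_all c.hx i0 c.dvd_root).2.1

lemma dvd_r2 (c : KB A n x y g i0 k p m d l t) : d ∣ g * y + 1 :=
  (c.sys.dvd_all c.hx i0 c.dvd_root).2.2.1

lemma cop_x (c : KB A n x y g i0 k p m d l t) : Nat.Coprime d x :=
  (c.sys.dvd_all c.hx i0 c.dvd_root).2.2.2.1

lemma cop_y (c : KB A n x y g i0 k p m d l t) : Nat.Coprime d y :=
  (c.sys.dvd_all c.hx i0 c.dvd_root).2.2.2.2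

/-- `gcd (d, s) ∣ 2`. -/
lemma gcd_s (c : KB A n x y g i0 k p m d l t) : Nat.gcd d (x + y) ∣ 2 := by
  have h1 := c.cop_y
  have h2 : x + y = 2 * y + m * d := by rw [c.hx]; ring
  rw [h2, Nat.gcd_add_mul_right_right]
  have h3 : Nat.gcd d (2 * y) ∣ 2 * y := Nat.gcd_dvd_right _ _
  have h4 : Nat.Coprime (Nat.gcd d (2 * y)) y :=
    Nat.Coprime.coprime_dvd_left (Nat.gcd_dvd_left _ _) h1
  exact h4.dvd_of_dvd_mul_right h3

/-- `d s ∣ 2 z` if `d` and `s` divide `z`. -/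
lemma mul_dvd (c : KB A n x y g i0 k p m d l t) {z : ℤ} (h1 : (d : ℤ) ∣ z)
    (h2 : ((x : ℤ) + y) ∣ z) : (d : ℤ) * (x + y) ∣ 2 * z := by
  have h3 : ((Nat.gcd d (x + y) : ℕ) : ℤ) ∣ 2 := by exact_mod_cast c.gcd_s
  have h4 : ((Nat.lcm d (x + y) : ℕ) : ℤ) ∣ z := by
    have h2' : (((x + y : ℕ)) : ℤ) ∣ z := by push_cast; exact h2
    have := lcm_dvd h1 h2'
    have e : lcm (d : ℤ) (((x + y : ℕ)) : ℤ) = ((Nat.lcm d (x + y) : ℕ) : ℤ) := rfl
    rwa [e] at this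
  have h5 := mul_dvd_mul h3 h4
  have e : ((Nat.gcd d (x + y) : ℕ) : ℤ) * ((Nat.lcm d (x + y) : ℕ) : ℤ) = d * (x + y) := by
    have := Nat.gcd_mul_lcm d (x + y)
    exact_mod_cast this
  rwa [e] at h5

lemma y_lt (c : KB A n x y g i0 k p m d l t) : y * (g * y + 1) < (x + y) * (k * p) := by
  obtain ⟨P, hP⟩ := c.out
  have := c.sys.y_lt i0 hP
  rwa [c.root] at this

/-- `λ < v`. -/
lemma lt_v (c : KB A n x y g i0 k p m d l t) : k * p < g * (x + y) + 1 := by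
  obtain ⟨P, hP⟩ := c.inn
  have := c.sys.lt_v i0 (fun h0 => by rw [h0] at hP; simp at hP)
  rwa [c.root] at this

/-- `s ∣ 2 l - d r₁`. -/
lemma l_mod (c : KB A n x y g i0 k p m d l t) : ((x : ℤ) + y) ∣ 2 * l - d * (g * x + 1) := by
  obtain ⟨P, hP⟩ := c.out
  obtain ⟨Q, hQ⟩ := c.inn
  have hPQ : P ≠ Q := fun h0 => hP (h0 ▸ hQ)
  exact c.sys.l_mod c.hmZ c.T hPQ

/-- `s ∣ x r₁ - m l`. -/
lemma c_mod (c : KB A n x y g i0 k p m d l t) : ((x : ℤ) + y) ∣ x * (g * x + 1) - m * l := by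
  obtain ⟨P, hP⟩ := c.out
  obtain ⟨Q, hQ⟩ := c.inn
  have hPQ : P ≠ Q := fun h0 => hP (h0 ▸ hQ)
  have h1 := c.T.cceq P Q hPQ
  exact ⟨cc A P Q - m * t P Q, by linear_combination -h1⟩

/-- `2 l ≠ d`. -/
lemma l_ne (c : KB A n x y g i0 k p m d l t) : 2 * l ≠ d := by
  have h1 := c.sys.ratio_bound c.hmZ c.hm0 c.T
  have hg : (1 : ℤ) ≤ g := by exact_mod_cast c.sys.hg
  have hy : (1 : ℤ) ≤ y := by exact_mod_cast c.sys.hy
  have hdm : (d : ℤ) + 2 * y ≤ x + y := by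
    have h2 := c.hmZ
    have h3 : (1 : ℤ) ≤ m := by exact_mod_cast c.hm1
    have h4 : (0 : ℤ) ≤ d := by positivity
    nlinarith
  have e : ((x : ℤ) + y) * l - d * x = l * y - (d - l) * x := by ring
  rw [e] at h1
  exact ratio_ne_half hg c.T.l0 hy hdm h1

end KB

end Pool.Agent.Lib.MP_93e743_co
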