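import Pool.Agent.Lib.MP_93e743_kp.BoundsB
import Pool.Agent.Lib.MP_93e743_qp.PInt

/-!
Row D1: the integer data in the case `k < y`.
-/

namespace Pool.Agent.Lib.MP_93e743_co

open Finset

set_option linter.unusedSectionVars false

variable {ι X : Type*} [Fintype ι] [Fintype X] [DecidableEq ι] [DecidableEq X]

namespace KB

variable {A : ι → Finset X} {n : ι → ℕ} {x y g : ℕ} {i0 : ι} {k p m d : ℕ} {l : ℤ}
  {t : X → X → ℤ}

/-- If `k < y` then `p ∣ n i` only for `n i = k p`. -/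
private theorem d1_n (c : KB A n x y g i0 k p m d l t) (hy : k < y) (i : ι) (hi : p ∣ n i) :
    n i = k * p := by
  by_cases hi0 : i = i0
  · rw [hi0, c.root]
  obtain ⟨a, ha⟩ := hi
  have hkpos : 0 < k := c.hk0
  have hppos : 0 < p := c.hp.pos
  have h3 := c.sys.K3 i0 i
  rw [c.root, ha] at h3
  have h4 : ((x : ℤ) - y) ∣ (p : ℤ) * (a - k) := by
    have e : (((p * a : ℕ) : ℤ) - ((k * p : ℕ) : ℤ)) = (p : ℤ) * (a - k) := by
      push_cast
      ring
    rwa [e] at h3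
  have hcm : IsCoprime ((x : ℤ) - y) (p : ℤ) := by
    rw [c.hmZ]
    have h5 : ¬ p ∣ d := fun h0 => by
      have h6 := Nat.le_of_dvd (by have := c.hd3; omega) h0
      have h7 := c.hdle
      have h8 := c.hkp
      omega
    have h9 : Nat.Coprime (m * d) p := by
      rw [Nat.coprime_comm]
      refine (Nat.Prime.coprime_iff_not_dvd c.hp).mpr fun h0 => ?_
      rcases (Nat.Prime.dvd_mul c.hp).mp h0 with h1 | h1
      · exact c.hpm h1
      · exact h5 h1
    have h10 := Nat.isCoprime_iff_coprime.mpr h9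
    push_cast at h10
    exact h10
  have h6 : ((x : ℤ) - y) ∣ (a : ℤ) - k := hcm.dvd_of_dvd_mul_left h4
  have hyx : (y : ℤ) < x := by exact_mod_cast c.sys.hxy
  have hky : (k : ℤ) < y := by exact_mod_cast hy
  have hkZ : (0 : ℤ) < k := by exact_mod_cast hkpos
  have hpZ : (0 : ℤ) < p := by exact_mod_cast hppos
  have h8 := c.sys.mul_le (i := i) (j := i0) hi0
  have h8' := c.sys.mul_le (i := i0) (j := i) (Ne.symm hi0)
  rw [c.root, ha] at h8 h8'
  have h9 : (y : ℤ) * a ≤ x * k := by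
    have e : (p : ℤ) * (y * a) ≤ p * (x * k) := by
      have : ((y * (p * a) : ℕ) : ℤ) ≤ ((x * (k * p) : ℕ) : ℤ) := by exact_mod_cast h8
      push_cast at this
      linarith
    exact le_of_mul_le_mul_left e hpZ
  have h9' : (y : ℤ) * k ≤ x * a := by
    have e : (p : ℤ) * (y * k) ≤ p * (x * a) := by
      have : ((y * (k * p) : ℕ) : ℤ) ≤ ((x * (p * a) : ℕ) : ℤ) := by exact_mod_cast h8'
      push_cast at this
      linarith
    exact le_of_mul_le_mul_left e hpZ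
  rcases lt_trichotomy (a : ℤ) k with h | h | h
  · exfalso
    have h7 : (x : ℤ) - y ≤ k - a := Int.le_of_dvd (by linarith) (by
      have := (dvd_neg (α := ℤ)).mpr h6
      rwa [neg_sub] at this)
    nlinarith
  · have : a = k := by exact_mod_cast h
    rw [ha, this, mul_comm]
  · exfalso
    have h7 : (x : ℤ) - y ≤ a - k := Int.le_of_dvd (by linarith) h6
    nlinarith

/-- Row D1. -/
theorem data1 (c : KB A n x y g i0 k p m d l t) (hp : 100 * k ^ 5 ≤ p) (hy : k < y) :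
    ∃ (q0 : ℤ) (N1 : X → ℤ) (M : X → X → ℤ), 0 < q0 ∧
      (∑ P, (((x : ℤ) + y) * N1 P - x * q0) ^ 2 = ((x : ℤ) + y) ^ 2 * k * q0 - x * y * q0 ^ 2) ∧
      ∀ P, 4 * ∑ Q ∈ univ.erase P, (((x : ℤ) + y) ^ 2 * M P Q -
        ((x : ℤ) + y) * x * (N1 P + N1 Q) + x ^ 2 * q0) ^ 2 ≤ ((x : ℤ) + y) ^ 4 * k ^ 2 := by
  have hs := c.s_lt hp
  have hy0 : 0 < y := c.sys.hy
  have hx0 : 0 < x := by have := c.sys.hxy; omega
  have hpx : ¬ p ∣ x := fun h => by have := Nat.le_of_dvd hx0 h; omega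
  have hpy : ¬ p ∣ y := fun h => by have := Nat.le_of_dvd hy0 h; omega
  have hL : ∀ i, p ∣ n i → n i ∣ p * k := by
    intro i hi
    rw [c.d1_n hy i hi, mul_comm]
  obtain ⟨q0, hq0⟩ := c.sys.pint0 c.hp hpx hpy k hL
  have h1 : ∀ P, ∃ z : ℤ, (k : ℚ) * M1 A n (univ.filter fun i => p ∣ n i) P = z :=
    fun P => c.sys.pint1 c.hp hpy k hL P
  choose N1 hN1 using h1
  have h2 : ∀ P Q, ∃ z : ℤ, P ≠ Q → (k : ℚ) * M2 A n (univ.filter fun i => p ∣ n i) P Q = z := by
    intro P Q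
    by_cases hPQ : P = Q
    · exact ⟨0, fun h => absurd hPQ h⟩
    · obtain ⟨z, hz⟩ := c.sys.pint2 c.hp hpy k hL hPQ
      exact ⟨z, fun _ => hz⟩
  choose M hM using h2
  have qq : (0 : ℚ) < k := by exact_mod_cast c.hk0
  have qx := c.sys.qx
  have qy := c.sys.qy
  have qs : (0 : ℚ) < (x : ℚ) + y := by linarith
  have hα := c.sys.qalpha
  have hR0 := c.sys.sys.R0 (univ.filter fun i => p ∣ n i)
  rw [hα] at hR0
  refine ⟨q0, N1, M, ?_, ?_, ?_⟩
  · have h3 : 0 < M0 n (univ.filter fun i => p ∣ n i) := by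
      unfold M0
      refine Finset.sum_pos (fun i _ => inv_pos.mpr (c.sys.qn i)) ⟨i0, ?_⟩
      rw [Finset.mem_filter]
      refine ⟨Finset.mem_univ _, ?_⟩
      rw [c.root]
      exact Dvd.intro_left _ rfl
    have h4 : (0 : ℚ) < q0 := by
      rw [← hq0]
      positivity
    exact_mod_cast h4
  · have h5 : ∑ P, (((x : ℚ) + y) * N1 P - x * q0) ^ 2 =
        ((x : ℚ) + y) ^ 2 * k * q0 - x * y * q0 ^ 2 := by
      have e1 : ∀ P, (((x : ℚ) + y) * N1 P - x * q0) ^ 2 = (((x : ℚ) + y) * k) ^ 2 *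
          G1 A n ((x : ℚ) / (x + y)) (univ.filter fun i => p ∣ n i) P ^ 2 := by
        intro P
        unfold G1
        rw [← hN1 P, ← hq0, ← mul_pow]
        congr 1
        field_simp
      rw [Finset.sum_congr rfl fun P _ => e1 P, ← Finset.mul_sum]
      have e2 : ∑ P, G1 A n ((x : ℚ) / (x + y)) (univ.filter fun i => p ∣ n i) P ^ 2 =
          M0 n (univ.filter fun i => p ∣ n i) - (x : ℚ) / (x + y) * (y / (x + y)) *
            M0 n (univ.filter fun i => p ∣ n i) ^ 2 := by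
        linarith
      rw [e2, ← hq0]
      field_simp
    exact_mod_cast h5
  · intro P
    have hRP := c.sys.sys.RP (univ.filter fun i => p ∣ n i) P
    rw [hα] at hRP
    have h6 : ∑ Q ∈ univ.erase P, (((x : ℚ) + y) ^ 2 * M P Q -
        ((x : ℚ) + y) * x * (N1 P + N1 Q) + x ^ 2 * q0) ^ 2 = (((x : ℚ) + y) ^ 2 * k) ^ 2 *
        ∑ Q ∈ univ.erase P, G2 A n ((x : ℚ) / (x + y)) (univ.filter fun i => p ∣ n i) P Q ^ 2 := by
      rw [Finset.mul_sum]
      refine Finset.sum_congr rfl fun Q hQ => ?_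
      have hPQ : P ≠ Q := (Finset.ne_of_mem_erase hQ).symm
      unfold G2
      rw [← hN1 P, ← hN1 Q, ← hM P Q hPQ, ← hq0, ← mul_pow]
      congr 1
      field_simp
    have h7 := Finset.add_sum_erase univ (fun Q => G2 A n ((x : ℚ) / (x + y))
      (univ.filter fun i => p ∣ n i) P Q ^ 2) (Finset.mem_univ P)
    have h8 : ∑ Q ∈ univ.erase P, G2 A n ((x : ℚ) / (x + y)) (univ.filter fun i => p ∣ n i) P Q ^ 2
        ≤ 1 / 4 := by
      have h9 : 0 ≤ (x : ℚ) / (x + y) * (y / (x + y)) *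
          G1 A n ((x : ℚ) / (x + y)) (univ.filter fun i => p ∣ n i) P ^ 2 := by positivity
      nlinarith [sq_nonneg (G2 A n ((x : ℚ) / (x + y)) (univ.filter fun i => p ∣ n i) P P - 1 / 2)]
    have h10 : 4 * ∑ Q ∈ univ.erase P, (((x : ℚ) + y) ^ 2 * M P Q -
        ((x : ℚ) + y) * x * (N1 P + N1 Q) + x ^ 2 * q0) ^ 2 ≤ ((x : ℚ) + y) ^ 4 * k ^ 2 := by
      rw [h6]
      have h11 : (((x : ℚ) + y) ^ 2 * k) ^ 2 * ∑ Q ∈ univ.erase P, G2 A n ((x : ℚ) / (x + y))
          (univ.filter fun i => p ∣ n i) P Q ^ 2 ≤ (((x : ℚ) + y) ^ 2 * k) ^ 2 * (1 / 4) :=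
        mul_le_mul_of_nonneg_left h8 (by positivity)
      calc _ ≤ 4 * ((((x : ℚ) + y) ^ 2 * k) ^ 2 * (1 / 4)) := by linarith
        _ = _ := by ring
    exact_mod_cast h10

end KB

end Pool.Agent.Lib.MP_93e743_co
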