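import Pool.Agent.Lib.MP_93e743_kp.Ctx
import Pool.Agent.Lib.MP_93e743_qp.FalseB

/-!
The end of Part I in the case `x = P + 1`, `y = 1`, and in the other case.
-/

namespace Pool.Agent.Lib.MP_93e743_co

open Finset

set_option linter.unusedSectionVars false

variable {ι X : Type*} [Fintype ι] [Fintype X] [DecidableEq ι] [DecidableEq X]

namespace IntSys

variable {A : ι → Finset X} {n : ι → ℕ} {x y g : ℕ}

/-- Row FB. -/
theorem falseB (h : IntSys A n x y g) (P C2 : ℕ) (hx : x = P + 1) (hy : y = 1) (hP2 : 2 ≤ P)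
    (hn : ∀ i, P ∣ n i) (hr0 : P ∣ g * y + 1) (hr : g * y + 1 ≤ C2 * P)
    (hp : (2 * C2 + 4) ^ 2 < P) : False := by
  have htwo : ∀ i, 0 ≤ ((n i : ℤ) - (g * y + 1 - P)) * ((n i : ℤ) - (g * y + 1)) := by
    intro i
    obtain ⟨a, ha⟩ := hn i
    obtain ⟨b, hb⟩ := hr0
    have hb' : (g : ℤ) * y + 1 = P * b := by exact_mod_cast hb
    have ha' : (n i : ℤ) = P * a := by exact_mod_cast ha
    rw [hb', ha']
    have h1 := mul_pred_nonneg (P : ℤ) ((a : ℤ) - b) (by positivity)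
    have e : ((P : ℤ) * a - (P * b - P)) * (P * a - P * b) =
        (P * ((a : ℤ) - b) + P) * (P * ((a : ℤ) - b)) := by ring
    rw [e]
    exact h1
  have h1 := h.K7 ((g : ℤ) * y + 1 - P) ((g : ℤ) * y + 1) htwo
  have hp2 : (2 : ℤ) ≤ P := by exact_mod_cast hP2
  have hg : (0 : ℤ) < g := by exact_mod_cast h.hg
  subst hy
  have hxZ : (x : ℤ) = P + 1 := by rw [hx]; push_cast; ring
  have hrZ : (g : ℤ) + 1 ≤ C2 * P := by
    have : g + 1 ≤ C2 * P := by simpa using hr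
    exact_mod_cast this
  have hpZ : (2 * (C2 : ℤ) + 4) ^ 2 < P := by exact_mod_cast hp
  rw [hxZ] at h1
  push_cast at h1
  set P' : ℤ := (P : ℤ) with hP
  set G : ℤ := (g : ℤ) with hG
  set C : ℤ := (C2 : ℤ) with hC
  have hC0 : 0 ≤ C := by rw [hC]; positivity
  set D : ℤ := G * (P' + 2) + (P' + 1) ^ 2 + 1 with hD
  have h2 : 0 ≤ (D - P' * (P' + 2) ^ 2) * D + (P' + 1) * P' ^ 2 * (G * (P' + 2) + 1) := by
    have e : (D - P' * (P' + 2) ^ 2) * D + (P' + 1) * P' ^ 2 * (G * (P' + 2) + 1) =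
        (((P' + 1) + 1) ^ 2 * (G * 1 + 1 - P') - (P' + 1) * 1 * (G * ((P' + 1) + 1) + 2)) *
          (((P' + 1) + 1) ^ 2 * (G * 1 + 1) - (P' + 1) * 1 * (G * ((P' + 1) + 1) + 2)) +
        (P' + 1) * 1 * ((P' + 1) - 1) ^ 2 * (G * ((P' + 1) + 1) + 1) := by
      rw [hD]; ring
    rw [e]
    exact h1
  have hG1 : 1 ≤ G := by linarith
  have h3 : P' ^ 5 ≤ D ^ 2 := by
    have e : D ^ 2 - P' ^ 5 = ((D - P' * (P' + 2) ^ 2) * D +
        (P' + 1) * P' ^ 2 * (G * (P' + 2) + 1)) +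
        (G * (P' + 2) + 1) * (P' * (3 * P' + 4)) +
        (P' * ((P' + 2) ^ 2 * (P' + 1) ^ 2) - P' ^ 5) := by
      rw [hD]; ring
    have h4 : 0 ≤ (G * (P' + 2) + 1) * (P' * (3 * P' + 4)) := by positivity
    have h5 : 0 ≤ P' * ((P' + 2) ^ 2 * (P' + 1) ^ 2) - P' ^ 5 := by
      have e2 : P' * ((P' + 2) ^ 2 * (P' + 1) ^ 2) - P' ^ 5 =
          P' * (6 * P' ^ 3 + 13 * P' ^ 2 + 12 * P' + 4) := by ring
      rw [e2]; positivity
    linarith
  have h6 : D ≤ (2 * C + 4) * P' ^ 2 := by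
    have h7 : (G + 1) * (P' + 2) ≤ (C * P') * (P' + 2) :=
      mul_le_mul_of_nonneg_right hrZ (by linarith)
    have h8 : (C * P') * (P' + 2) ≤ (C * P') * (2 * P') :=
      mul_le_mul_of_nonneg_left (by linarith) (by positivity)
    nlinarith
  have hD0 : 0 ≤ D := by positivity
  have h9 : D ^ 2 ≤ ((2 * C + 4) * P' ^ 2) ^ 2 := pow_le_pow_left₀ hD0 h6 2
  have h10 : ((2 * C + 4) * P' ^ 2) ^ 2 < P' * P' ^ 4 := by
    have e : ((2 * C + 4) * P' ^ 2) ^ 2 = (2 * C + 4) ^ 2 * P' ^ 4 := by ring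
    rw [e]
    exact mul_lt_mul_of_pos_right hpZ (by positivity)
  have e5 : P' * P' ^ 4 = P' ^ 5 := by ring
  linarith

end IntSys

namespace KA

variable {A : ι → Finset X} {n : ι → ℕ} {x y g : ℕ} {i0 : ι} {k p m d m' : ℕ} {l : ℤ}
  {t : X → X → ℤ}

/-- Row FA. -/
theorem falseA (c : KA A n x y g i0 k p m d m' l t) (C2 : ℕ) (hr : g * y + 1 ≤ C2 * p)
    (hA : p * (x + y) ≤ 3 * (y * (g * y + 1))) (hp : (3 * C2 ^ 2 + 5) ^ 4 ≤ 64 * p) : False := by
  have htwo := c.two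
  have hp0 := c.hp.pos
  have hs : p ≤ x + y := by
    rw [c.hx]
    have : 1 * p ≤ m * p := Nat.mul_le_mul_right p c.hm1
    omega
  have h1 : g * (x + y) ≤ 3 * C2 ^ 2 * p := by
    have h2 : p * (g * (x + y)) ≤ p * (3 * C2 ^ 2 * p) := by
      calc p * (g * (x + y)) = g * (p * (x + y)) := by ring
        _ ≤ g * (3 * (y * (g * y + 1))) := Nat.mul_le_mul_left g hA
        _ = 3 * ((g * y) * (g * y + 1)) := by ring
        _ ≤ 3 * ((C2 * p) * (C2 * p)) := by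
            apply Nat.mul_le_mul_left
            exact Nat.mul_le_mul (by omega) hr
        _ = p * (3 * C2 ^ 2 * p) := by ring
    exact Nat.le_of_mul_le_mul_left h2 hp0
  have h2 : g ≤ 3 * C2 ^ 2 := by
    have h3 : g * p ≤ 3 * C2 ^ 2 * p := (Nat.mul_le_mul_left g hs).trans h1
    exact Nat.le_of_mul_le_mul_right h3 hp0
  have h3 : (g + 5) ^ 4 ≤ (3 * C2 ^ 2 + 5) ^ 4 := Nat.pow_le_pow_left (by omega) 4
  omega

end KA

end Pool.Agent.Lib.MP_93e743_co
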