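import Pool.Agent.Lib.MP_93e743_kp.Ctx

/-!
Row F2: the finite sums of part II, bounded `x + y`.
-/

namespace Pool.Agent.Lib.MP_93e743_co

open Finset

set_option linter.unusedSectionVars false

variable {ι X : Type*} [Fintype ι] [Fintype X] [DecidableEq ι] [DecidableEq X]

/-- The number of nonzero terms of a sum of squares of integers. -/
private theorem card_le_aux2 {X : Type*} (S : Finset X) (F : X → ℤ) (c : ℤ)
    (hF : ∀ P ∈ S, F P ≠ 0) (hS : ∑ P ∈ S, F P ^ 2 ≤ c) : (S.card : ℤ) ≤ c := by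
  have h1 : ∑ _P ∈ S, (1 : ℤ) ≤ ∑ P ∈ S, F P ^ 2 := Finset.sum_le_sum fun P hP => by
    have h2 : 0 < F P ^ 2 := by
      have := hF P hP
      positivity
    omega
  rw [Finset.sum_const, nsmul_eq_mul, mul_one] at h1
  exact h1.trans hS

/-- Row F2. -/
theorem fin_bdd (s x y k q0 g : ℤ) (N1 : X → ℤ) (M : X → X → ℤ) (hs : s = x + y) (hyx : y < x)
    (hcop : IsCoprime x y) (hk3 : 3 ≤ k) (hy : k < y)
    (hv : (Fintype.card X : ℤ) = g * s + 1) (hbig : 5000000 * k ^ 22 ≤ g * s)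
    (hsb : s ≤ 64 * k ^ 5) (hx : x ≤ k * y + 4 * k ^ 2) (hq0 : 0 < q0)
    (h1 : ∑ P, (s * N1 P - x * q0) ^ 2 = s ^ 2 * k * q0 - x * y * q0 ^ 2)
    (h2 : ∀ P, 4 * ∑ Q ∈ univ.erase P,
      (s ^ 2 * M P Q - s * x * (N1 P + N1 Q) + x ^ 2 * q0) ^ 2 ≤ s ^ 4 * k ^ 2) : False := by
  classical
  have hq0' : 0 < k := by linarith
  have hy0 : 0 < y := by linarith
  have hx0 : 0 < x := by linarith
  have hs0 : 0 < s := by linarith
  have hxy0 : 0 < x * y := mul_pos hx0 hy0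
  have hs2 : 0 < s ^ 2 := by positivity
  -- bound for q0
  have hb1 : s ^ 2 ≤ (5 * k + 3) * (x * y) := by
    have e1 : y * y ≤ x * y := by nlinarith
    have e2 : x * x ≤ x * (k * y + 4 * k ^ 2) := by nlinarith
    have e3 : k * k ≤ k * y := by nlinarith
    have e4 : x * (k * k) ≤ x * (k * y) := mul_le_mul_of_nonneg_left e3 hx0.le
    rw [hs]
    nlinarith
  have hb2 : x * y * q0 ≤ s ^ 2 * k := by
    have e1 : 0 ≤ ∑ P, (s * N1 P - x * q0) ^ 2 := Finset.sum_nonneg fun P _ => sq_nonneg _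
    rw [h1] at e1
    have e2 : (x * y * q0) * q0 ≤ (s ^ 2 * k) * q0 := by nlinarith
    exact le_of_mul_le_mul_right e2 hq0
  have hb3 : q0 ≤ 6 * k ^ 2 := by
    have e1 : (x * y) * q0 ≤ (x * y) * ((5 * k + 3) * k) := by
      have : s ^ 2 * k ≤ (5 * k + 3) * (x * y) * k := mul_le_mul_of_nonneg_right hb1 hq0'.le
      linarith
    have e2 : q0 ≤ (5 * k + 3) * k := le_of_mul_le_mul_left e1 hxy0
    nlinarith
  have hsum : ∑ P, (s * N1 P - x * q0) ^ 2 ≤ s ^ 2 * k * q0 := by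
    rw [h1]
    have : 0 ≤ x * y * q0 ^ 2 := by positivity
    linarith
  have hq1 : 1 ≤ k ^ 9 := by
    have : 0 < k ^ 9 := by positivity
    omega
  have hbnd1 : s ^ 2 * k * q0 ≤ 24576 * k ^ 22 := by
    calc s ^ 2 * k * q0 ≤ (64 * k ^ 5) ^ 2 * k * (6 * k ^ 2) := by gcongr
      _ = 24576 * k ^ 13 * 1 := by ring
      _ ≤ 24576 * k ^ 13 * k ^ 9 := mul_le_mul_of_nonneg_left hq1 (by positivity)
      _ = 24576 * k ^ 22 := by ring
  have hbnd2 : s ^ 4 * k ^ 2 ≤ 4 * (4194304 * k ^ 22) := by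
    calc s ^ 4 * k ^ 2 ≤ (64 * k ^ 5) ^ 4 * k ^ 2 := by gcongr
      _ = 4 * (4194304 * k ^ 22) := by ring
  have hq18 : 0 < k ^ 22 := by positivity
  -- good points
  set S : Finset X := univ.filter fun P => s * N1 P - x * q0 = 0 with hSdef
  have hSc : g * s + 1 - 24576 * k ^ 22 ≤ S.card := by
    have e1 := card_le_aux2 (univ.filter fun P => ¬ s * N1 P - x * q0 = 0)
      (fun P => s * N1 P - x * q0) (s ^ 2 * k * q0) (fun P hP => (Finset.mem_filter.mp hP).2)
      ((Finset.sum_le_univ_sum_of_nonneg fun P => sq_nonneg _).trans hsum)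
    have e2 := Finset.card_filter_add_card_filter_not (s := (univ : Finset X))
      (fun P => s * N1 P - x * q0 = 0)
    rw [Finset.card_univ] at e2
    have e3 : (S.card : ℤ) + ((univ.filter fun P => ¬ s * N1 P - x * q0 = 0).card : ℤ) =
        Fintype.card X := by exact_mod_cast e2
    rw [hv] at e3
    linarith
  have hne : S.Nonempty := by
    rw [← Finset.card_pos]
    have : (0 : ℤ) < S.card := by linarith
    exact_mod_cast this
  obtain ⟨P, hP⟩ := hne
  have hNP : s * N1 P - x * q0 = 0 := (Finset.mem_filter.mp hP).2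
  -- good second points
  have hex : ∃ Q ∈ S.erase P, s ^ 2 * M P Q - s * x * (N1 P + N1 Q) + x ^ 2 * q0 = 0 := by
    by_contra hcon
    push Not at hcon
    have e1 : ∑ Q ∈ S.erase P, (s ^ 2 * M P Q - s * x * (N1 P + N1 Q) + x ^ 2 * q0) ^ 2 ≤
        ∑ Q ∈ univ.erase P, (s ^ 2 * M P Q - s * x * (N1 P + N1 Q) + x ^ 2 * q0) ^ 2 :=
      Finset.sum_le_sum_of_subset_of_nonneg (Finset.erase_subset_erase _ (Finset.subset_univ _))
        (fun _ _ _ => sq_nonneg _)
    have e2 := card_le_aux2 (S.erase P)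
      (fun Q => s ^ 2 * M P Q - s * x * (N1 P + N1 Q) + x ^ 2 * q0) (4194304 * k ^ 22) hcon (by
        have := h2 P
        linarith)
    rw [Finset.card_erase_of_mem hP] at e2
    have e3 : 1 ≤ S.card := Finset.card_pos.mpr ⟨P, hP⟩
    rw [Nat.cast_sub e3] at e2
    push_cast at e2
    linarith
  obtain ⟨Q, hQ, hz⟩ := hex
  have hNQ : s * N1 Q - x * q0 = 0 := (Finset.mem_filter.mp (Finset.mem_of_mem_erase hQ)).2
  have hdvd : s ^ 2 ∣ x ^ 2 * q0 := by
    refine ⟨M P Q, ?_⟩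
    have e1 : s * N1 P = x * q0 := by linarith
    have e2 : s * N1 Q = x * q0 := by linarith
    have e3 : s * x * (N1 P + N1 Q) = 2 * (x ^ 2 * q0) := by
      calc s * x * (N1 P + N1 Q) = x * (s * N1 P) + x * (s * N1 Q) := by ring
        _ = 2 * (x ^ 2 * q0) := by rw [e1, e2]; ring
    linarith
  have hcop' : IsCoprime (s ^ 2) (x ^ 2) := by
    refine IsCoprime.pow ?_
    rw [hs]
    exact (IsCoprime.add_mul_left_left (hcop.symm) 1 : IsCoprime (y + x * 1) x) |> fun h => by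
      rwa [mul_one, add_comm] at h
  have hdvd2 : s ^ 2 ∣ q0 := hcop'.dvd_of_dvd_mul_left hdvd
  have hle : s ^ 2 ≤ q0 := Int.le_of_dvd hq0 hdvd2
  have e1 : x * y * s ^ 2 ≤ s ^ 2 * k := le_trans (mul_le_mul_of_nonneg_left hle hxy0.le) hb2
  have e2 : x * y ≤ k := by
    have : (x * y) * s ^ 2 ≤ k * s ^ 2 := by linarith
    exact le_of_mul_le_mul_right this hs2
  nlinarith

end Pool.Agent.Lib.MP_93e743_co
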