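import Pool.Agent.Lib.MP_93e743_kp.Ctx
import Pool.Agent.Lib.MP_93e743_qp.Generic

/-!
The generic point in the case `x = P + 1`, `y = 1`.
-/

namespace Pool.Agent.Lib.MP_93e743_co

open Finset

set_option linter.unusedSectionVars false

variable {ι X : Type*} [Fintype ι] [Fintype X] [DecidableEq ι] [DecidableEq X]

/-- The arithmetic of the bound `R ≤ v / 3`. -/
private lemma genKB_arith (G P : ℚ) (hG : 1 ≤ G) (hP : 16 ≤ P) (h3 : 3 * (G + 1) < P * (P + 2)) :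
    (G * (P + 1) + 1) * (G + 1) - ((G + 1 - P) + (G + 1)) * (G * (P + 2) + 2) +
      (G + 1 - P) * (G + 1) * ((P + 2) ^ 2 / (P + 1)) ≤ (G * (P + 2) + 1) / 3 := by
  have hx : 0 < P + 1 := by linarith
  have hs : 0 < P + 2 := by linarith
  have hP0 : 0 < P := by linarith
  set D : ℚ := (G + 1) * (P + 2) + (P + 1) * P with hD
  set v : ℚ := G * (P + 2) + 1 with hv
  have hv0 : 0 ≤ v := by positivity
  have hDv : v ≤ D := by rw [hD, hv]; nlinarith
  have hD3 : P * (P + 2) ^ 2 * (2 / 3) - (P + 1) * P ≤ P * (P + 2) ^ 2 - D := by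
    have h4 : (3 * (G + 1)) * (P + 2) ≤ (P * (P + 2)) * (P + 2) :=
      mul_le_mul_of_nonneg_right h3.le hs.le
    rw [hD]; nlinarith
  have hw : 0 ≤ P * (P + 2) ^ 2 * (2 / 3) - (P + 1) * P := by nlinarith [mul_pos hP0 hP0]
  have h5 : v * (P * (P + 2) ^ 2 * (2 / 3) - (P + 1) * P) ≤ D * (P * (P + 2) ^ 2 - D) :=
    mul_le_mul hDv hD3 hw (hv0.trans hDv)
  have h6 : v * (P ^ 2 * (P + 1) - (P + 1) * (P + 2) ^ 2 / 3) ≤
      v * (P * (P + 2) ^ 2 * (2 / 3) - (P + 1) * P) := by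
    apply mul_le_mul_of_nonneg_left _ hv0
    nlinarith [mul_pos hP0 hP0]
  have key : (G * (P + 1) + 1) * (G + 1) - ((G + 1 - P) + (G + 1)) * (G * (P + 2) + 2) +
      (G + 1 - P) * (G + 1) * ((P + 2) ^ 2 / (P + 1)) =
      (D * (D - P * (P + 2) ^ 2) + v * (P ^ 2 * (P + 1))) / ((P + 1) * (P + 2) ^ 2) := by
    rw [hD, hv]
    field_simp
    ring
  rw [key, div_le_div_iff₀ (by positivity) (by norm_num)]
  nlinarith

namespace IntSys

variable {A : ι → Finset X} {n : ι → ℕ} {x y g : ℕ}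

private lemma genKB_mult {n : ι → ℕ} {y g p : ℕ} (hn : ∀ i, p ∣ n i) (hr : p ∣ g * y + 1) (i : ι) :
    0 ≤ ((n i : ℤ) - (g * y + 1 - p)) * ((n i : ℤ) - (g * y + 1)) := by
  obtain ⟨a, ha⟩ := hn i
  obtain ⟨b, hb⟩ := hr
  have hb' : (g : ℤ) * y + 1 = p * b := by exact_mod_cast hb
  have ha' : (n i : ℤ) = p * a := by exact_mod_cast ha
  rw [hb', ha']
  have e : ((p : ℤ) * a - (p * b - p)) * (p * a - p * b) =
      (p : ℤ) ^ 2 * (((a : ℤ) - b) * ((a : ℤ) - b + 1)) := by ring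
  rw [e]
  apply mul_nonneg (by positivity)
  rcases le_or_gt (0 : ℤ) ((a : ℤ) - b) with h | h
  · exact mul_nonneg h (by linarith)
  · have h3 : (a : ℤ) - b + 1 ≤ 0 := by linarith
    nlinarith

/-- Row GB. -/
theorem genericB (h : IntSys A n x y g) (P : ℕ) (hP16 : 16 ≤ P) (hx : x = P + 1) (hy : y = 1)
    (hn : ∀ i, P ∣ n i) (hr : P ∣ g * y + 1) (h3 : 3 * (y * (g * y + 1)) < P * (x + y)) :
    ∃ Q, Phi A n x g Q ≤ 136 * g := by
  have hPQ : (16 : ℚ) ≤ P := by exact_mod_cast hP16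
  subst hy
  have hxZ : (x : ℤ) = P + 1 := by rw [hx]; push_cast; ring
  have hxQ : (x : ℚ) = P + 1 := by rw [hx]; push_cast; ring
  have hgN : 1 ≤ g := h.hg
  have hgQ : (1 : ℚ) ≤ g := by exact_mod_cast hgN
  have h3Q : 3 * ((g : ℚ) + 1) < P * (P + 2) := by
    have h4 : 3 * ((g : ℚ) + 1) < P * (x + 1) := by
      have : 3 * (g + 1) < P * (x + 1) := by simpa using h3
      exact_mod_cast this
    rw [hxQ] at h4
    linarith
  have hP0 : (0 : ℚ) < P := by linarith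
  set v : ℚ := (g : ℚ) * (P + 2) + 1 with hv
  have hv0 : 0 < v := by positivity
  set T : ι → ℚ := fun i => ((n i : ℚ) - (g + 1 - P)) * ((n i : ℚ) - (g + 1)) * (n i : ℚ)⁻¹ with hT
  have hR : ∑ i, T i ≤ v / 3 := by
    have h4 := h.sum_ab ((g : ℚ) + 1 - P) ((g : ℚ) + 1)
    have h5 := genKB_arith (g : ℚ) P hgQ hPQ h3Q
    rw [hT, h4, hxQ]
    push_cast
    refine le_trans (le_of_eq ?_) h5
    rw [show ((P : ℚ) + 1 + 1) = P + 2 by ring, mul_one, mul_one]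
  have hT0 : ∀ i, 0 ≤ T i := by
    intro i
    have h4 := genKB_mult (n := n) hn hr i
    have h5 : (0 : ℚ) ≤ ((n i : ℚ) - (g * (1 : ℕ) + 1 - P)) * ((n i : ℚ) - (g * (1 : ℕ) + 1)) := by
      exact_mod_cast h4
    have h6 : (0 : ℚ) < n i := h.qn i
    simp only [Nat.cast_one, mul_one] at h5
    exact mul_nonneg h5 (inv_nonneg.2 h6.le)
  set L : Finset ι := univ.filter fun i => bz A x g i < -((16 : ℤ) * (g * (1 : ℕ) + 1)) with hL
  have hcard : ∀ i ∈ L, 196 * (P : ℚ) * (((A i)ᶜ.card : ℕ) : ℚ) ≤ 225 * (P + 2) * T i := by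
    intro i hi
    have hb : bz A x g i < -((16 : ℤ) * (g * (1 : ℕ) + 1)) := by
      rw [hL, mem_filter] at hi
      exact hi.2
    have h4 := h.bz_eq i
    have h5 := h.compl_eq i
    have hpZ : (16 : ℤ) ≤ P := by exact_mod_cast hP16
    have hgZ : (1 : ℤ) ≤ g := by exact_mod_cast hgN
    rw [hxZ] at h4 h5
    simp only [Nat.cast_one, mul_one] at h4 h5 hb
    have h6 : (P : ℤ) * bz A x g i ≤ P * (-(16 * ((g : ℤ) + 1))) :=
      mul_le_mul_of_nonneg_left hb.le (by linarith)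
    have h7 : 15 * ((g : ℤ) + 1) ≤ n i := by
      have h8 : ((P : ℤ) + 2) * (15 * (g + 1)) ≤ (P + 2) * n i := by nlinarith
      exact le_of_mul_le_mul_left h8 (by linarith)
    have h7Q : 15 * ((g : ℚ) + 1) ≤ n i := by exact_mod_cast h7
    have h5Q : (P : ℚ) * (((A i)ᶜ.card : ℕ) : ℚ) ≤ (P + 2) * n i := by
      have h8 : (P : ℤ) * (((A i)ᶜ.card : ℕ) : ℤ) ≤ (P + 2) * n i := by nlinarith
      exact_mod_cast h8
    have hn : (0 : ℚ) < n i := h.qn i
    have hTn : 196 * (n i : ℚ) ≤ 225 * T i := by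
      have h8 : 196 * (n i : ℚ) * n i ≤
          225 * (((n i : ℚ) - (g + 1 - P)) * ((n i : ℚ) - (g + 1))) := by
        have h9 : 0 ≤ (n i : ℚ) - (g + 1) := by linarith
        have h10 : 14 * (n i : ℚ) ≤ 15 * ((n i : ℚ) - (g + 1)) := by linarith
        have h11 : (14 * (n i : ℚ)) * (14 * n i) ≤
            (15 * ((n i : ℚ) - (g + 1))) * (15 * ((n i : ℚ) - (g + 1))) :=
          mul_le_mul h10 h10 (by positivity) (by linarith)
        have h12 : 0 ≤ (P : ℚ) * ((n i : ℚ) - (g + 1)) := mul_nonneg hP0.le h9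
        nlinarith
      have h13 := mul_le_mul_of_nonneg_right h8 (inv_nonneg.2 hn.le)
      have e1 : 196 * (n i : ℚ) * n i * (n i : ℚ)⁻¹ = 196 * n i := by
        field_simp
      rw [e1] at h13
      have e2 : 225 * (((n i : ℚ) - (g + 1 - P)) * ((n i : ℚ) - (g + 1))) * (n i : ℚ)⁻¹ =
          225 * T i := by
        rw [hT]; ring
      rw [e2] at h13
      exact h13
    calc 196 * (P : ℚ) * (((A i)ᶜ.card : ℕ) : ℚ) = 196 * (P * (((A i)ᶜ.card : ℕ) : ℚ)) := by ring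
      _ ≤ 196 * ((P + 2) * n i) := by linarith
      _ = (P + 2) * (196 * n i) := by ring
      _ ≤ (P + 2) * (225 * T i) := mul_le_mul_of_nonneg_left hTn (by linarith)
      _ = 225 * (P + 2) * T i := by ring
  set W : Finset X := L.biUnion fun i => (A i)ᶜ with hW
  have hWc : (W.card : ℚ) ≤ v / 2 := by
    have h4 : (W.card : ℚ) ≤ ∑ i ∈ L, (((A i)ᶜ.card : ℕ) : ℚ) := by
      have : W.card ≤ ∑ i ∈ L, (A i)ᶜ.card := card_biUnion_le
      exact_mod_cast this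
    have h5 : 196 * (P : ℚ) * ∑ i ∈ L, (((A i)ᶜ.card : ℕ) : ℚ) ≤ 225 * (P + 2) * ∑ i ∈ L, T i := by
      rw [mul_sum, mul_sum]
      exact sum_le_sum hcard
    have h6 : ∑ i ∈ L, T i ≤ ∑ i, T i :=
      sum_le_sum_of_subset_of_nonneg (subset_univ _) fun i _ _ => hT0 i
    have h7 : 225 * ((P : ℚ) + 2) * ∑ i ∈ L, T i ≤ 225 * (P + 2) * (v / 3) :=
      mul_le_mul_of_nonneg_left (h6.trans hR) (by positivity)
    have h8 : 225 * ((P : ℚ) + 2) * (v / 3) ≤ 196 * P * (v / 2) := by nlinarith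
    have h9 : 196 * (P : ℚ) * W.card ≤ 196 * P * (v / 2) := by
      have := mul_le_mul_of_nonneg_left h4 (show (0 : ℚ) ≤ 196 * P by positivity)
      linarith
    exact le_of_mul_le_mul_left h9 (by positivity)
  have hcX : ((Fintype.card X : ℕ) : ℚ) = v := by
    rw [h.cardX, hx, hv]
    push_cast
    ring
  have hUc : v / 2 ≤ ((Wᶜ.card : ℕ) : ℚ) := by
    rw [card_compl, Nat.cast_sub (card_le_univ _), hcX]
    linarith
  have hUne : (Wᶜ).Nonempty := by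
    rw [← card_pos]
    have : (0 : ℚ) < ((Wᶜ.card : ℕ) : ℚ) := by linarith
    exact_mod_cast this
  obtain ⟨Q, hPU, hPhi⟩ := h.exists_generic 16 Wᶜ hUne (by
    intro i Q hP hPA
    by_contra hcon
    rw [not_le] at hcon
    apply mem_compl.1 hP
    rw [hW, mem_biUnion]
    refine ⟨i, ?_, mem_compl.2 hPA⟩
    rw [hL, mem_filter]
    exact ⟨mem_univ _, by exact_mod_cast hcon⟩)
  refine ⟨Q, ?_⟩
  have hPhi0 : 0 ≤ Phi A n x g Q := by
    unfold Phi
    exact sum_nonneg fun i _ => mul_nonneg (sq_nonneg _) (inv_nonneg.2 (h.qn i).le)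
  rw [hxQ] at hPhi
  simp only [Nat.cast_one, mul_one] at hPhi
  have h4 : v / 2 * Phi A n x g Q ≤ ((Wᶜ.card : ℕ) : ℚ) * Phi A n x g Q :=
    mul_le_mul_of_nonneg_right hUc hPhi0
  have h5 : v * Phi A n x g Q ≤ 34 * ((g : ℚ) + 1) ^ 2 * (P + 2) := by
    have h6 : ((Wᶜ.card : ℕ) : ℚ) * Phi A n x g Q ≤ (1 + 16) * ((g : ℚ) + 1) ^ 2 * (P + 1 + 1) := by
      exact_mod_cast hPhi
    linarith
  have h7 : 34 * ((g : ℚ) + 1) ^ 2 * (P + 2) ≤ v * (136 * g) := by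
    have h8 : ((g : ℚ) + 1) ^ 2 ≤ 4 * g ^ 2 := by nlinarith
    have h9 : 34 * ((g : ℚ) + 1) ^ 2 * (P + 2) ≤ 34 * (4 * g ^ 2) * (P + 2) := by
      have : (0 : ℚ) ≤ P + 2 := by positivity
      nlinarith
    have h10 : 34 * (4 * (g : ℚ) ^ 2) * (P + 2) ≤ v * (136 * g) := by
      rw [hv]
      nlinarith
    linarith
  exact le_of_mul_le_mul_left (h5.trans h7) hv0

end IntSys

end Pool.Agent.Lib.MP_93e743_co
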