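import Pool.Agent.Lib.MP_93e743_kp.Ctx

/-!
If `q0 > 0` and `2 |K| q0 < s` then `s` is bounded.
-/

namespace Pool.Agent.Lib.MP_93e743_co

open Finset

set_option linter.unusedSectionVars false

variable {ι X : Type*} [Fintype ι] [Fintype X] [DecidableEq ι] [DecidableEq X]

namespace KB

variable {A : ι → Finset X} {n : ι → ℕ} {x y g : ℕ} {i0 : ι} {k p m d : ℕ} {l : ℤ}
  {t : X → X → ℤ}

/-- Row SP. -/
theorem s_large' (c : KB A n x y g i0 k p m d l t)
    (hJ : (d : ℤ) * (x + y) - 2 * d + 4 ≤ 2 * (g * |((x : ℤ) + y) * l - d * x|)) (q0 : ℤ)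
    (N1 : X → ℤ) (hq0 : 0 < q0)
    (h1 : ∑ P, (((x : ℤ) + y) * N1 P - x * q0) ^ 2 = ((x : ℤ) + y) ^ 2 * k * q0 - x * y * q0 ^ 2)
    (hc : 2 * |((x : ℤ) + y) * l - d * x| * q0 < x + y) : x + y < k ^ 5 + 8 := by
  by_contra hcon
  rw [not_lt] at hcon
  have hg : (0 : ℤ) < g := by exact_mod_cast c.sys.hg
  have hy : (0 : ℤ) < y := by exact_mod_cast c.sys.hy
  have hxy : (y : ℤ) < x := by exact_mod_cast c.sys.hxy
  have hd3 : (3 : ℤ) ≤ d := by exact_mod_cast c.hd3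
  have hdk : (d : ℤ) ≤ k := by exact_mod_cast c.hdle
  have hds : (d : ℤ) + 2 ≤ x + y := by
    have h2 := c.hmZ
    have h3 : (1 : ℤ) ≤ m := by exact_mod_cast c.hm1
    nlinarith
  have hconZ : (k : ℤ) ^ 5 + 8 ≤ x + y := by exact_mod_cast hcon
  set s : ℤ := (x : ℤ) + y with hs
  have hs0 : 0 < s := by linarith
  set K := s * l - d * x with hK
  have hKpos : 0 < |K| := by
    by_contra h2
    have h3 : |K| = 0 := le_antisymm (not_lt.mp h2) (abs_nonneg _)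
    rw [h3] at hJ
    have h4 : (d : ℤ) * 2 ≤ d * s := mul_le_mul_of_nonneg_left (by linarith) (by linarith)
    linarith
  have hK1 : 1 ≤ |K| := hKpos
  -- all terms are large
  have h2 : ∀ P, (|K| * q0) ^ 2 ≤ (d : ℤ) ^ 2 * (s * N1 P - x * q0) ^ 2 := by
    intro P
    have e : (d : ℤ) * (s * N1 P - x * q0) = s * (d * N1 P - l * q0) + K * q0 := by
      rw [hK]; ring
    have h3 : |K| * q0 ≤ |(d : ℤ) * (s * N1 P - x * q0)| := by
      rw [e]
      rcases eq_or_ne (d * N1 P - l * q0) 0 with h4 | h4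
      · rw [h4, mul_zero, zero_add, abs_mul, abs_of_pos hq0]
      · have h5 := Int.one_le_abs h4
        have h6 : s ≤ |s * (d * N1 P - l * q0)| := by
          rw [abs_mul, abs_of_pos hs0]
          nlinarith
        have h7 : |s * (d * N1 P - l * q0)| ≤ |s * (d * N1 P - l * q0) + K * q0| + |K * q0| := by
          have := abs_sub (s * (d * N1 P - l * q0) + K * q0) (K * q0)
          rwa [add_sub_cancel_right] at this
        have h8 : |K * q0| = |K| * q0 := by rw [abs_mul, abs_of_pos hq0]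
        rw [h8] at h7
        linarith
    have h4 : (|K| * q0) ^ 2 ≤ |(d : ℤ) * (s * N1 P - x * q0)| ^ 2 :=
      pow_le_pow_left₀ (by positivity) h3 2
    rw [sq_abs] at h4
    linarith
  have h3 : (Fintype.card X : ℤ) * (|K| * q0) ^ 2 ≤
      (d : ℤ) ^ 2 * (s ^ 2 * k * q0 - x * y * q0 ^ 2) := by
    rw [← h1, Finset.mul_sum]
    have h4 := Finset.sum_le_sum (s := (univ : Finset X)) fun P _ => h2 P
    rwa [Finset.sum_const, Finset.card_univ, nsmul_eq_mul] at h4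
  have hv : (Fintype.card X : ℤ) = g * s + 1 := by rw [c.sys.cardX, hs]; push_cast; ring
  rw [hv] at h3
  have h4 : (s * q0) * (g * (|K| ^ 2 * q0)) ≤ (s * q0) * (d ^ 2 * s * k) := by
    have h5 : 0 ≤ (|K| * q0) ^ 2 := sq_nonneg _
    have h6 : 0 ≤ (d : ℤ) ^ 2 * (x * y * q0 ^ 2) := by positivity
    linarith
  have h5 := le_of_mul_le_mul_left h4 (by positivity)
  have h6 : (g : ℤ) ≤ d ^ 2 * s * k := by
    have h7 : (1 : ℤ) ≤ |K| ^ 2 * q0 := by
      have : (1 : ℤ) ≤ |K| ^ 2 := one_le_pow₀ hK1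
      nlinarith
    have h8 : (g : ℤ) * 1 ≤ g * (|K| ^ 2 * q0) := mul_le_mul_of_nonneg_left h7 hg.le
    linarith
  have hk0 : (0 : ℤ) ≤ k := by positivity
  have h7 : (g : ℤ) * d ^ 2 < 2 * s ^ 2 := by
    have h8 : (g : ℤ) * d ^ 2 ≤ (d ^ 2 * s * k) * d ^ 2 :=
      mul_le_mul_of_nonneg_right h6 (by positivity)
    have h9 : (d : ℤ) ^ 4 ≤ k ^ 4 := pow_le_pow_left₀ (by linarith) hdk 4
    have h10 : (d : ℤ) ^ 4 * (k * s) ≤ k ^ 4 * (k * s) :=
      mul_le_mul_of_nonneg_right h9 (by positivity)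
    have h11 : (k : ℤ) ^ 5 * s ≤ s * s := mul_le_mul_of_nonneg_right (by linarith) hs0.le
    have h12 : 0 < s * s := mul_pos hs0 hs0
    nlinarith
  have h8 : (d : ℤ) ≤ 6 ∨ (d : ℤ) ^ 2 + 64 ≤ 8 * s := by
    right
    have h9 : (d : ℤ) ^ 2 ≤ k ^ 2 := pow_le_pow_left₀ (by linarith) hdk 2
    have h10 : (k : ℤ) ^ 2 ≤ k ^ 5 := pow_le_pow_right₀ (by linarith) (by norm_num)
    have h11 : 0 ≤ (k : ℤ) ^ 5 := by positivity
    linarith
  have hr : (d : ℤ) ∣ g * x + 1 := by exact_mod_cast c.dvd_r1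
  have hR := c.sys.exists_rmat c.hmZ c.hm0 hr c.T
  have key := sparse_num (g := (g : ℤ)) (s := s) (d := (d : ℤ)) (l := l)
    hg c.T.l0 c.T.l1 hds h7 h8
  exact hR.false_of key.1 key.2

end KB

end Pool.Agent.Lib.MP_93e743_co
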