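import Pool.Agent.Lib.MP_93e743_kp.R2Le
import Pool.Agent.Lib.MP_93e743_kp.FalseAB
import Pool.Agent.Lib.MP_93e743_kp.SLarge
import Pool.Agent.Lib.MP_93e743_kp.Data1
import Pool.Agent.Lib.MP_93e743_kp.FinBdd
import Pool.Agent.Lib.MP_93e743_kp.AllZ
import Pool.Agent.Lib.MP_93e743_kp.Mixed
import Pool.Agent.Lib.MP_93e743_qp.SmallLam

/-!
The main theorem for `λ = k p`: for every `k` and every large prime `p`.
-/

namespace Pool.Agent.Lib.MP_93e743_co

open Finset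

set_option linter.unusedSectionVars false

variable {ι X : Type*} [Fintype ι] [Fintype X] [DecidableEq ι] [DecidableEq X]

/-! ## Part I -/

namespace KA

variable {A : ι → Finset X} {n : ι → ℕ} {x y g : ℕ} {i0 : ι} {k p m d m' : ℕ} {l : ℤ}
  {t : X → X → ℤ}

/-- The bound for Part I. -/
def bdA (k : ℕ) : ℕ :=
  (3 * (2000000 * k ^ 4) ^ 2 + 5) ^ 4 + (2 * (2000000 * k ^ 4) + 4) ^ 2 + 16

theorem false (c : KA A n x y g i0 k p m d m' l t) (hp : bdA k < p) : False := by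
  unfold bdA at hp
  have h16 : 16 ≤ p := by omega
  have hr := c.r2_le h16
  rcases le_or_gt (p * (x + y)) (3 * (y * (g * y + 1))) with h3 | h3
  · exact c.falseA _ hr h3 (by omega)
  · obtain ⟨hm, hy⟩ := c.caseB h16 h3
    obtain ⟨hn, hr0⟩ := c.dvd_of_dvd hm
    have hpm : p ≤ m * p := Nat.le_mul_of_pos_left p (by have := c.hm1; omega)
    refine c.sys.falseB (m * p) (2000000 * k ^ 4) (by rw [c.hx, hy]; ring) hy (by omega) hn hr0
      (hr.trans (Nat.mul_le_mul_left _ hpm)) (by omega)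

end KA

/-! ## Part II -/

/-- `q0` is bounded. -/
lemma q0_le {s x y k q0 : ℤ} (hs : s = x + y) (hyx : y < x) (hk3 : 3 ≤ k) (hy : k < y)
    (hx : x ≤ k * y + 4 * k ^ 2) (hq0 : 0 < q0) (h1 : 0 ≤ s ^ 2 * k * q0 - x * y * q0 ^ 2) :
    q0 ≤ 8 * k ^ 2 := by
  have h2 : q0 * (x * y * q0) ≤ q0 * (s ^ 2 * k) := by linarith
  have h3 := le_of_mul_le_mul_left h2 hq0
  have hx0 : 0 < x := by linarith
  have hy0 : 0 < y := by linarith
  have h4 : s ^ 2 ≤ x * y * (5 * k + 3) := by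
    have h5 : x * x ≤ x * (y * (5 * k)) := by
      apply mul_le_mul_of_nonneg_left _ hx0.le
      nlinarith
    have h6 : y * y ≤ x * y := mul_le_mul_of_nonneg_right hyx.le hy0.le
    rw [hs]
    nlinarith
  have h7 : x * y * q0 ≤ x * y * ((5 * k + 3) * k) := by
    have := mul_le_mul_of_nonneg_right h4 (by linarith : (0 : ℤ) ≤ k)
    linarith
  have h8 := le_of_mul_le_mul_left h7 (mul_pos hx0 hy0)
  nlinarith

namespace KB

variable {A : ι → Finset X} {n : ι → ℕ} {x y g : ℕ} {i0 : ι} {k p m d : ℕ} {l : ℤ}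
  {t : X → X → ℤ}

theorem s_large (c : KB A n x y g i0 k p m d l t) (hp : k ^ 3 ≤ p) (q0 : ℤ) (N1 : X → ℤ)
    (hq0 : 0 < q0)
    (h1 : ∑ P, (((x : ℤ) + y) * N1 P - x * q0) ^ 2 = ((x : ℤ) + y) ^ 2 * k * q0 - x * y * q0 ^ 2)
    (hc : 2 * |((x : ℤ) + y) * l - d * x| * q0 < x + y) : x + y < k ^ 5 + 8 :=
  c.s_large' (c.J_ge hp) q0 N1 hq0 h1 hc

theorem false1 (c : KB A n x y g i0 k p m d l t) (hp : 5000000 * k ^ 21 ≤ p) (hy : k < y) :
    False := by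
  have hk3 := c.hk3
  have hk1 : 1 ≤ k := by omega
  have hp5 : 100 * k ^ 5 ≤ p := by
    have : k ^ 5 ≤ k ^ 21 := Nat.pow_le_pow_right hk1 (by norm_num)
    omega
  have hp3 : k ^ 3 ≤ p := by
    have : k ^ 3 ≤ k ^ 5 := Nat.pow_le_pow_right hk1 (by norm_num)
    omega
  obtain ⟨q0, N1, M, hq0, h1, h2⟩ := c.data1 hp5 hy
  have hv : (Fintype.card X : ℤ) = g * ((x : ℤ) + y) + 1 := by
    rw [c.sys.cardX]; push_cast; ring
  have hlt := c.lt_v
  have hbig : 5000000 * k ^ 22 ≤ g * (x + y) := by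
    have : k * (5000000 * k ^ 21) ≤ k * p := Nat.mul_le_mul_left k hp
    have e : k * (5000000 * k ^ 21) = 5000000 * k ^ 22 := by ring
    omega
  have hbig' : (5000000 : ℤ) * k ^ 22 ≤ g * (x + y) := by exact_mod_cast hbig
  have hyx : (y : ℤ) < x := by exact_mod_cast c.sys.hxy
  have hyZ : (k : ℤ) < y := by exact_mod_cast hy
  have hxZ : (x : ℤ) ≤ k * y + 4 * k ^ 2 := by exact_mod_cast c.x_le
  have hk3Z : (3 : ℤ) ≤ k := by exact_mod_cast hk3
  have hq0le : q0 ≤ 8 * (k : ℤ) ^ 2 := by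
    refine q0_le (s := (x : ℤ) + y) rfl hyx hk3Z hyZ hxZ hq0 ?_
    rw [← h1]
    exact Finset.sum_nonneg fun P _ => sq_nonneg _
  have hsb : (x : ℤ) + y ≤ 64 * k ^ 5 := by
    rcases lt_or_ge (2 * |((x : ℤ) + y) * l - d * x| * q0) ((x : ℤ) + y) with hc | hc
    · have h3 := c.s_large hp3 q0 N1 hq0 h1 hc
      have h4 : x + y ≤ 64 * k ^ 5 := by
        have : 1 ≤ k ^ 5 := Nat.one_le_pow _ _ hk1
        omega
      exact_mod_cast h4
    · have hK := c.K_le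
      have h3 : 2 * |((x : ℤ) + y) * l - d * x| * q0 ≤ 2 * (4 * (k : ℤ) ^ 2) * (8 * k ^ 2) := by
        apply mul_le_mul (by linarith) hq0le hq0.le (by positivity)
      have h4 : 2 * (4 * (k : ℤ) ^ 2) * (8 * k ^ 2) ≤ 64 * k ^ 5 := by
        have h5 : (k : ℤ) ^ 4 ≤ k ^ 5 := pow_le_pow_right₀ (by linarith) (by norm_num)
        nlinarith
      linarith
  exact fin_bdd ((x : ℤ) + y) x y k q0 g N1 M rfl hyx
    (Nat.isCoprime_iff_coprime.mpr c.sys.cop) hk3Z hyZ hv hbig' hsb hxZ hq0 h1 h2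

/-- The bound for Part II. -/
def bdB (k : ℕ) : ℕ := 5000000 * k ^ 21 + bdM k

/-- The conclusion of Part II. -/
theorem main (c : KB A n x y g i0 k p m d l t) (hp : bdB k ≤ p) :
    y ≤ k ∧ x + y ≤ 6 * k ^ 2 ∧ ∃ j : ℕ, 0 < j ∧ d ∣ 2 * j ∧ ((x : ℤ) - y) ∣ 2 * (j * y) - k ∧
      j * y * (x + y) ≤ k * x := by
  unfold bdB at hp
  rcases lt_or_ge k y with hy | hy
  · exact absurd (c.false1 (by omega) hy) id
  · refine ⟨hy, c.s_le hy, ?_⟩
    by_cases hall : ∀ i, p ∣ n i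
    · exfalso
      refine c.allZ hy hall ?_
      have hk1 : 1 ≤ k := by have := c.hk3; omega
      have : k ^ 13 ≤ k ^ 21 := Nat.pow_le_pow_right hk1 (by norm_num)
      omega
    · push Not at hall
      obtain ⟨i1, h1⟩ := hall
      obtain ⟨μ, h0, ⟨j, hj⟩, h3, h4, h5⟩ := c.mixed hy i1 h1 (by omega)
      refine ⟨j, ?_, ?_, ?_, ?_⟩
      · rcases Nat.eq_zero_or_pos j with h6 | h6
        · rw [hj, h6] at h0; simp at h0
        · exact h6
      · have h6 : (d : ℤ) ∣ ((μ : ℕ) : ℤ) := by exact_mod_cast h3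
        have h7 : ((x : ℤ) + y) ∣ ((μ : ℕ) : ℤ) := ⟨j, by rw [hj]; push_cast; ring⟩
        have h8 := c.mul_dvd h6 h7
        have h9 : (d : ℤ) * (x + y) ∣ (2 * j) * (x + y) := by
          rw [hj] at h8
          have e : 2 * (((x + y) * j : ℕ) : ℤ) = (2 * j) * (x + y) := by push_cast; ring
          rwa [e] at h8
        have hs : ((x : ℤ) + y) ≠ 0 := by
          have := c.sys.hy
          have : (0 : ℤ) < y := by exact_mod_cast this
          positivity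
        have h10 := Int.dvd_of_mul_dvd_mul_right hs h9
        exact_mod_cast h10
      · have h6 : ((x : ℤ) - y) ∣ (x - y) * j := ⟨j, rfl⟩
        have h7 := dvd_sub h4 h6
        have e : ((μ : ℕ) : ℤ) - k - (x - y) * j = 2 * (j * y) - k := by
          rw [hj]; push_cast; ring
        rwa [e] at h7
      · rw [hj] at h5
        calc j * y * (x + y) = y * ((x + y) * j) := by ring
          _ ≤ k * x := h5

end KB

/-! ## Assembly -/

namespace IntSys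

variable {A : ι → Finset X} {n : ι → ℕ} {x y g : ℕ}

/-- The bound. -/
def bdK (k : ℕ) : ℕ := KA.bdA k + KB.bdB k + k + 1

/-- An explicit bound for `bdK k`. -/
theorem bdK_le {k : ℕ} (hk : 0 < k) : bdK k ≤ 2 ^ (4000 * k ^ 10) := by
  unfold bdK KA.bdA KB.bdB KB.bdM
  have e1 : 2 ^ (4000 * k ^ 10) = (2 ^ (k ^ 10)) ^ 4000 := by rw [← pow_mul, mul_comm]
  have e2 : 2 ^ (3600 * k ^ 10) = (2 ^ (k ^ 10)) ^ 3600 := by rw [← pow_mul, mul_comm]
  have hku : k ≤ 2 ^ (k ^ 10) :=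
    Nat.lt_two_pow_self.le.trans (Nat.pow_le_pow_right (by norm_num)
      (Nat.le_self_pow (by norm_num) k))
  have hu2 : 2 ≤ 2 ^ (k ^ 10) := by
    have h : 2 ^ 1 ≤ 2 ^ (k ^ 10) :=
      Nat.pow_le_pow_right (by norm_num) (Nat.one_le_pow _ _ hk)
    simpa using h
  have hF : (5 * k ^ 3).factorial ≤ (2 ^ (k ^ 10)) ^ 25 := by
    calc (5 * k ^ 3).factorial ≤ (5 * k ^ 3) ^ (5 * k ^ 3) := Nat.factorial_le_pow _
      _ ≤ (2 ^ (5 * k ^ 3)) ^ (5 * k ^ 3) := Nat.pow_le_pow_left Nat.lt_two_pow_self.le _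
      _ = 2 ^ (25 * k ^ 6) := by rw [← pow_mul]; congr 1; ring
      _ ≤ 2 ^ (25 * k ^ 10) := Nat.pow_le_pow_right (by norm_num)
          (Nat.mul_le_mul_left _ (Nat.pow_le_pow_right hk (by norm_num)))
      _ = (2 ^ (k ^ 10)) ^ 25 := by rw [← pow_mul, mul_comm]
  rw [e1, e2]
  generalize 2 ^ (k ^ 10) = u at *
  generalize (5 * k ^ 3).factorial = F at *
  have hu1 : 1 ≤ u := by omega
  have hmon : ∀ {a b : ℕ}, a ≤ b → u ^ a ≤ u ^ b := fun h => Nat.pow_le_pow_right hu1 h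
  have h2 : ∀ a : ℕ, 2 ^ a ≤ u ^ a := fun a => Nat.pow_le_pow_left hu2 a
  have hk4 : k ^ 4 ≤ u ^ 4 := Nat.pow_le_pow_left hku 4
  have hW : 1296 * k ^ 8 * F ^ 2 ≤ u ^ 69 := by
    calc 1296 * k ^ 8 * F ^ 2 ≤ u ^ 11 * u ^ 8 * (u ^ 25) ^ 2 := by
          apply Nat.mul_le_mul
          · exact Nat.mul_le_mul (le_trans (by norm_num) (h2 11)) (Nat.pow_le_pow_left hku 8)
          · exact Nat.pow_le_pow_left hF 2
      _ = u ^ 69 := by ring
  have hA0 : 2000000 * k ^ 4 ≤ u ^ 25 := by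
    calc 2000000 * k ^ 4 ≤ u ^ 21 * u ^ 4 :=
          Nat.mul_le_mul (le_trans (by norm_num) (h2 21)) hk4
      _ = u ^ 25 := by ring
  generalize 2000000 * k ^ 4 = a at *
  generalize 1296 * k ^ 8 * F ^ 2 = W at *
  have hA1 : (3 * a ^ 2 + 5) ^ 4 ≤ u ^ 212 := by
    have h3 : 3 * a ^ 2 + 5 ≤ u ^ 53 := by
      have h4 : a ^ 2 ≤ (u ^ 25) ^ 2 := Nat.pow_le_pow_left hA0 2
      have h5 : (u ^ 25) ^ 2 = u ^ 50 := by ring
      have h6 : 2 ^ 3 * u ^ 50 ≤ u ^ 3 * u ^ 50 := Nat.mul_le_mul_right _ (h2 3)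
      have h7 : u ^ 3 * u ^ 50 = u ^ 53 := by ring
      have h8 : 1 ≤ u ^ 50 := Nat.one_le_pow _ _ hu1
      omega
    calc (3 * a ^ 2 + 5) ^ 4 ≤ (u ^ 53) ^ 4 := Nat.pow_le_pow_left h3 4
      _ = u ^ 212 := by ring
  have hA2 : (2 * a + 4) ^ 2 ≤ u ^ 56 := by
    have h3 : 2 * a + 4 ≤ u ^ 28 := by
      have h6 : 2 ^ 3 * u ^ 25 ≤ u ^ 3 * u ^ 25 := Nat.mul_le_mul_right _ (h2 3)
      have h7 : u ^ 3 * u ^ 25 = u ^ 28 := by ring
      have h8 : 1 ≤ u ^ 25 := Nat.one_le_pow _ _ hu1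
      omega
    calc (2 * a + 4) ^ 2 ≤ (u ^ 28) ^ 2 := Nat.pow_le_pow_left h3 2
      _ = u ^ 56 := by ring
  have hB1 : 5000000 * k ^ 21 ≤ u ^ 44 := by
    calc 5000000 * k ^ 21 ≤ u ^ 23 * u ^ 21 :=
          Nat.mul_le_mul (le_trans (by norm_num) (h2 23)) (Nat.pow_le_pow_left hku 21)
      _ = u ^ 44 := by ring
  have hB2 : 100 * k ^ 5 ≤ u ^ 12 := by
    calc 100 * k ^ 5 ≤ u ^ 7 * u ^ 5 :=
          Nat.mul_le_mul (le_trans (by norm_num) (h2 7)) (Nat.pow_le_pow_left hku 5)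
      _ = u ^ 12 := by ring
  have hB3 : u ^ 3600 * (W + 2) ≤ u ^ 3671 := by
    have h3 : W + 2 ≤ u ^ 71 := by
      have h6 : 2 ^ 2 * u ^ 69 ≤ u ^ 2 * u ^ 69 := Nat.mul_le_mul_right _ (h2 2)
      have h7 : u ^ 2 * u ^ 69 = u ^ 71 := by ring
      have h8 : 1 ≤ u ^ 69 := Nat.one_le_pow _ _ hu1
      omega
    calc u ^ 3600 * (W + 2) ≤ u ^ 3600 * u ^ 71 := Nat.mul_le_mul_left _ h3
      _ = u ^ 3671 := by rw [← pow_add]
  have m1 := hmon (show 212 ≤ 3671 by norm_num)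
  have m2 := hmon (show 56 ≤ 3671 by norm_num)
  have m3 := hmon (show 44 ≤ 3671 by norm_num)
  have m4 := hmon (show 12 ≤ 3671 by norm_num)
  have m5 := hmon (show 69 ≤ 3671 by norm_num)
  have m6 := hmon (show 1 ≤ 3671 by norm_num)
  have m7 := hmon (show 5 ≤ 3671 by norm_num)
  have m8 := h2 5
  have m9 : 2 ^ 4 * u ^ 3671 ≤ u ^ 4000 := by
    calc 2 ^ 4 * u ^ 3671 ≤ u ^ 4 * u ^ 3671 := Nat.mul_le_mul_right _ (h2 4)
      _ = u ^ 3675 := by rw [← pow_add]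
      _ ≤ u ^ 4000 := hmon (by norm_num)
  have m10 : u ^ 1 = u := pow_one u
  omega

theorem kp_main (h : IntSys A n x y g) (i0 : ι) {k p : ℕ} (hk : 0 < k) (hp : p.Prime)
    (hroot : n i0 = k * p) (hout : ∃ P, P ∉ A i0) (hin : ∃ P, P ∈ A i0) (hpk : bdK k ≤ p) :
    (∃ c, ∀ P Q, P ≠ Q → cc A P Q = c) ∨
      (y ≤ k ∧ x + y ≤ 6 * k ^ 2 ∧ 3 ≤ Nat.gcd k (x - y) ∧ ∃ j : ℕ, 0 < j ∧
        Nat.gcd k (x - y) ∣ 2 * j ∧ ((x : ℤ) - y) ∣ 2 * (j * y) - k ∧
        j * y * (x + y) ≤ k * x) := by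
  by_cases hnc : ∃ c, ∀ P Q, P ≠ Q → cc A P Q = c
  · exact Or.inl hnc
  right
  unfold bdK at hpk
  have hkp : k < p := by omega
  have hxyN := h.hxy
  have hmpos : 0 < x - y := by omega
  set d := Nat.gcd (n i0) (x - y) with hd
  have hdpos : 0 < d := Nat.gcd_pos_of_pos_right _ hmpos
  have hddm : d ∣ x - y := Nat.gcd_dvd_right _ _
  obtain ⟨l, t, hT⟩ := h.exists_tmat i0 d ((x - y) / d) rfl rfl hnc
  obtain ⟨N, ρ, a, b, hPar⟩ := h.exists_params i0 d ((x - y) / d) rfl rfl hnc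
  have hone := hPar.ineq_one
  have htwo := hPar.ineq_two
  have hd3 := hPar.hd
  have hmm : x - y = (x - y) / d * d := (Nat.div_mul_cancel hddm).symm
  set m' := (x - y) / d with hm'
  have hm'0 : 1 ≤ m' := by
    rcases Nat.eq_zero_or_pos m' with h0 | h0
    · rw [h0] at hmm; omega
    · exact h0
  by_cases hpm : p ∣ x - y
  · -- Part I
    exfalso
    obtain ⟨P0, hP0⟩ := hout
    have hp2 := hp.two_le
    have hlam : 2 ≤ n i0 := by rw [hroot]; nlinarith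
    have hlt : x - y < k * p := by
      by_contra hcon
      rw [not_lt] at hcon
      exact h.small_lam i0 P0 hP0 hlam (by rw [hroot]; omega)
    have hpd : p ∣ d := Nat.dvd_gcd (by rw [hroot]; exact Dvd.intro_left _ rfl) hpm
    obtain ⟨m, hm⟩ := hpm
    have hmk : m < k := by
      rw [hm, mul_comm] at hlt
      exact lt_of_mul_lt_mul_right hlt (Nat.zero_le _)
    have hm1 : 1 ≤ m := by
      rcases Nat.eq_zero_or_pos m with h0 | h0
      · rw [h0] at hm; omega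
      · exact h0
    refine KA.false (A := A) (n := n) (i0 := i0) (k := k) (p := p) (m := m) (d := d) (m' := m')
      (l := l) (t := t) ⟨h, hp, ?_, hm1, hmk, hroot, ⟨P0, hP0⟩, ?_, Nat.le_of_dvd hdpos hpd, hT, ?_⟩
      (by omega)
    · rw [mul_comm m p]; omega
    · rw [mul_comm m p, ← hm]; exact hmm
    · exact_mod_cast htwo
  · -- Part II
    have hdk : d ∣ k := by
      have h1 : d ∣ k * p := by rw [← hroot]; exact Nat.gcd_dvd_left _ _
      have h2 : Nat.Coprime d p := by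
        rw [Nat.coprime_comm]
        exact (Nat.Prime.coprime_iff_not_dvd hp).mpr fun h3 => hpm (h3.trans hddm)
      exact h2.dvd_of_dvd_mul_right h1
    have hdg : d = Nat.gcd k (x - y) := by
      apply Nat.dvd_antisymm
      · exact Nat.dvd_gcd hdk hddm
      · rw [hd, hroot]
        exact Nat.gcd_dvd_gcd_mul_right_left _ _ _
    have hd3' : 3 ≤ d := by exact_mod_cast hd3
    have hKB : KB A n x y g i0 k p m' d l t := ⟨h, hp, hd3', hdk, hk, hkp, by omega, hm'0, by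
      intro h1
      apply hpm
      rw [hmm]
      exact h1.mul_right d, hroot, hout, hin, hT, by exact_mod_cast hone⟩
    obtain ⟨h1, h2, j, h3, h4, h5, h6⟩ := hKB.main (by omega)
    rw [← hdg]
    exact ⟨h1, h2, hd3', j, h3, h4, h5, h6⟩

end IntSys

/-- For a prime `k` the exceptional case does not occur. -/
theorem kp_prime {k x y j : ℕ} (hk : k.Prime) (hy : 0 < y)
    (h3 : 3 ≤ Nat.gcd k (x - y)) (hj : 0 < j) (h4 : Nat.gcd k (x - y) ∣ 2 * j)
    (h6 : j * y * (x + y) ≤ k * x) : False := by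
  have h7 : Nat.gcd k (x - y) = k := by
    rcases (Nat.dvd_prime hk).mp (Nat.gcd_dvd_left k (x - y)) with h | h
    · omega
    · exact h
  rw [h7] at h3 h4
  have h8 : k ∣ j := by
    refine (Nat.Coprime.dvd_of_dvd_mul_left ?_ h4)
    rw [Nat.coprime_primes hk Nat.prime_two]
    omega
  have h9 : k ≤ j := Nat.le_of_dvd hj h8
  have h10 : k * x < j * y * (x + y) := by
    have h11 : k * 1 ≤ j * y := Nat.mul_le_mul h9 hy
    have h12 : k * 1 * (x + y) ≤ j * y * (x + y) := Nat.mul_le_mul_right _ h11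
    have h13 : 0 < k * y := Nat.mul_pos hk.pos hy
    nlinarith
  omega

namespace IsLambdaDesign

variable {v lam : ℕ} {L : Finset (Finset (Fin v))}

theorem kp (h : IsLambdaDesign v lam L) {k p : ℕ} (hk : 0 < k) (hp : p.Prime)
    (hlam : lam = k * p) (hpk : IntSys.bdK k ≤ p) :
    IsType1 v L ∨ (¬ k.Prime ∧ ∃ x y g j : ℕ, 0 < g ∧ 0 < y ∧ y < x ∧ Nat.Coprime x y ∧
      (∃ P, repl L P = g * x + 1) ∧ (∃ Q, repl L Q = g * y + 1) ∧
      (∀ P, repl L P = g * x + 1 ∨ repl L P = g * y + 1) ∧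
      y ≤ k ∧ x + y ≤ 6 * k ^ 2 ∧ 3 ≤ Nat.gcd k (x - y) ∧ 0 < j ∧
      Nat.gcd k (x - y) ∣ 2 * j ∧ ((x : ℤ) - y) ∣ 2 * (j * y) - k ∧
      j * y * (x + y) ≤ k * x) := by
  obtain ⟨E, x, y, g, hE1, hE2, hI, hr1, hr2⟩ := h.exists_intSys
  have hout : ∃ P, P ∉ E := by
    by_contra hcon
    push Not at hcon
    exact hE2 (Finset.eq_univ_iff_forall.mpr hcon)
  have hin : ∃ P, P ∈ E := Finset.nonempty_iff_ne_empty.mpr hE1
  rcases hI.kp_main none hk hp (by rw [← hlam]; rfl) hout hin hpk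
    with hc | ⟨h1, h2, h3, j, h4, h5, h6, h7⟩
  · exact Or.inl (h.isType1_of_const hE1 hE2 hI hc)
  · right
    obtain ⟨P0, hP0⟩ := hout
    obtain ⟨Q0, hQ0⟩ := hin
    refine ⟨fun hkp => kp_prime hkp hI.hy h3 h4 h5 h7, x, y, g, j, hI.hg, hI.hy, hI.hxy,
      hI.cop, ⟨P0, hr1 P0 hP0⟩, ⟨Q0, hr2 Q0 hQ0⟩, ?_, h1, h2, h3, h4, h5, h6, h7⟩
    intro P
    by_cases hP : P ∈ E
    · exact Or.inr (hr2 P hP)
    · exact Or.inl (hr1 P hP)

end IsLambdaDesign

end Pool.Agent.Lib.MP_93e743_co
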