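import Pool.Agent.Lib.MP_93e743_kp.GenericA
import Pool.Agent.Lib.MP_93e743_kp.CaseB
import Pool.Agent.Lib.MP_93e743_kp.GenericB

/-!
The bound for `r₂` in Part I, `λ = k p`.
-/

namespace Pool.Agent.Lib.MP_93e743_co

open Finset

set_option linter.unusedSectionVars false

variable {ι X : Type*} [Fintype ι] [Fintype X] [DecidableEq ι] [DecidableEq X]

/-- The arithmetic at the end of the proof of `KA.r2_le`. -/
lemma r2_arithK {s y g m p d k e l : ℤ} (hs0 : 0 < s) (hy : 0 < y) (hg : 0 < g) (hm : 1 ≤ m)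
    (hmk : m ≤ k) (hp : 0 < p) (hpd : p ≤ d) (hl0 : 0 < l) (hl1 : l < d)
    (hs : s = 2 * y + m * p) (hes : m * e ≤ s * k) (hPhi : s * (d - l) ≤ 2 * d * (1776 * k ^ 2 * y))
    (h4 : 4 * (1776 * k ^ 2) * y ≤ s) (hge : 4 * e ≤ g * y)
    (hF : l ^ 2 * (g * y - 2 * e) ^ 2 ≤ 4 * s ^ 2 * (e - 1) * (g * (d - l))) :
    g * y ≤ 909312 * k ^ 4 * p := by
  have hk : 1 ≤ k := hm.trans hmk
  have hd : 0 < d := lt_of_lt_of_le hp hpd
  have hk2 : 1 ≤ k ^ 2 := one_le_pow₀ hk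
  have hgy : 0 < g * y := mul_pos hg hy
  -- `2 (d - l) ≤ d`
  have h1 : s * (2 * (d - l)) ≤ s * d := by
    have h2 : d * (4 * (1776 * k ^ 2) * y) ≤ d * s := mul_le_mul_of_nonneg_left h4 hd.le
    linarith
  have h2 : 2 * (d - l) ≤ d := le_of_mul_le_mul_left h1 hs0
  have hpl : d ≤ 2 * l := by linarith
  -- `s ≤ 2 m p`
  have h3 : s ≤ 2 * (m * p) := by
    have h5 : 4 * y ≤ 4 * (1776 * k ^ 2) * y := by
      have : 4 * 1 * y ≤ 4 * (1776 * k ^ 2) * y := by
        apply mul_le_mul_of_nonneg_right _ hy.le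
        linarith
      linarith
    linarith
  -- from `F3`
  have h6 : (g * y) ^ 2 ≤ 4 * (g * y - 2 * e) ^ 2 := by
    have h7 : g * y ≤ 2 * (g * y - 2 * e) := by linarith
    have h8 := pow_le_pow_left₀ hgy.le h7 2
    linarith
  have h9 : l ^ 2 * (g * y) ^ 2 ≤ 16 * s ^ 2 * e * (g * (d - l)) := by
    have h10 : l ^ 2 * (g * y) ^ 2 ≤ l ^ 2 * (4 * (g * y - 2 * e) ^ 2) :=
      mul_le_mul_of_nonneg_left h6 (by positivity)
    have h11 : 4 * s ^ 2 * (e - 1) * (g * (d - l)) ≤ 4 * s ^ 2 * e * (g * (d - l)) := by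
      apply mul_le_mul_of_nonneg_right _ (mul_nonneg hg.le (by linarith))
      apply mul_le_mul_of_nonneg_left _ (by positivity)
      linarith
    linarith
  have h12 : d ^ 2 * (g * y) ^ 2 ≤ 64 * s ^ 2 * e * (g * (d - l)) := by
    have h13 : d ^ 2 ≤ (2 * l) ^ 2 := pow_le_pow_left₀ hd.le hpl 2
    have h14 : d ^ 2 * (g * y) ^ 2 ≤ (2 * l) ^ 2 * (g * y) ^ 2 :=
      mul_le_mul_of_nonneg_right h13 (by positivity)
    linarith
  have h15 : d ^ 2 * (g * y) ^ 2 * m ≤ 64 * s ^ 2 * g * (k * (2 * d * (1776 * k ^ 2 * y))) := by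
    calc d ^ 2 * (g * y) ^ 2 * m ≤ 64 * s ^ 2 * e * (g * (d - l)) * m :=
          mul_le_mul_of_nonneg_right h12 (by linarith)
      _ = (64 * s ^ 2 * g * (d - l)) * (m * e) := by ring
      _ ≤ (64 * s ^ 2 * g * (d - l)) * (s * k) := by
          apply mul_le_mul_of_nonneg_left hes
          exact mul_nonneg (by positivity) (by linarith)
      _ = (64 * s ^ 2 * g * k) * (s * (d - l)) := by ring
      _ ≤ (64 * s ^ 2 * g * k) * (2 * d * (1776 * k ^ 2 * y)) :=
          mul_le_mul_of_nonneg_left hPhi (by positivity)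
      _ = 64 * s ^ 2 * g * (k * (2 * d * (1776 * k ^ 2 * y))) := by ring
  have h16 : s ^ 2 ≤ (2 * (m * p)) ^ 2 := pow_le_pow_left₀ hs0.le h3 2
  have h17 : (d * (g * y) * m) * (d * (g * y)) ≤
      (d * (g * y) * m) * (p * (909312 * k ^ 3 * m * p)) := by
    calc (d * (g * y) * m) * (d * (g * y)) = d ^ 2 * (g * y) ^ 2 * m := by ring
      _ ≤ 64 * s ^ 2 * g * (k * (2 * d * (1776 * k ^ 2 * y))) := h15
      _ = s ^ 2 * (64 * g * (k * (2 * d * (1776 * k ^ 2 * y)))) := by ring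
      _ ≤ (2 * (m * p)) ^ 2 * (64 * g * (k * (2 * d * (1776 * k ^ 2 * y)))) :=
          mul_le_mul_of_nonneg_right h16 (by positivity)
      _ = (d * (g * y) * m) * (p * (909312 * k ^ 3 * m * p)) := by ring
  have h18 : d * (g * y) ≤ p * (909312 * k ^ 3 * m * p) :=
    le_of_mul_le_mul_left h17 (by positivity)
  have h19 : p * (g * y) ≤ p * (909312 * k ^ 3 * m * p) :=
    (mul_le_mul_of_nonneg_right hpd hgy.le).trans h18
  have h20 : g * y ≤ 909312 * k ^ 3 * m * p := le_of_mul_le_mul_left h19 hp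
  refine h20.trans ?_
  have h21 : 909312 * k ^ 3 * m * p ≤ 909312 * k ^ 3 * k * p := by
    apply mul_le_mul_of_nonneg_right _ hp.le
    exact mul_le_mul_of_nonneg_left hmk (by positivity)
  calc 909312 * k ^ 3 * m * p ≤ 909312 * k ^ 3 * k * p := h21
    _ = 909312 * k ^ 4 * p := by ring

namespace KA

variable {A : ι → Finset X} {n : ι → ℕ} {x y g : ℕ} {i0 : ι} {k p m d m' : ℕ} {l : ℤ}
  {t : X → X → ℤ}

/-- Both generic cases. -/
lemma generic (c : KA A n x y g i0 k p m d m' l t) (hp16 : 16 ≤ p)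
    (h8 : 8 * (k * p) ≤ g * y + 1) : ∃ P, Phi A n x g P ≤ 1776 * k ^ 2 * g * y := by
  rcases le_or_gt (p * (x + y)) (3 * (y * (g * y + 1))) with h3 | h3
  · exact c.genericA (by omega) h8 h3
  · obtain ⟨hm, hy⟩ := c.caseB hp16 h3
    obtain ⟨hn, hr⟩ := c.dvd_of_dvd hm
    have hpm : p ≤ m * p := Nat.le_mul_of_pos_left p (by have := c.hm1; omega)
    obtain ⟨P, hP⟩ := c.sys.genericB (m * p) (by omega) (by rw [c.hx, hy]; ring) hy hn hr
      (lt_of_lt_of_le h3 (Nat.mul_le_mul_right _ hpm))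
    refine ⟨P, hP.trans ?_⟩
    have hk : (1 : ℚ) ≤ k := by
      have : 1 ≤ k := by have := c.hk2; omega
      exact_mod_cast this
    have hk2 : (1 : ℚ) ≤ (k : ℚ) ^ 2 := one_le_pow₀ hk
    have hg := c.sys.qg
    rw [hy, Nat.cast_one, mul_one]
    apply mul_le_mul_of_nonneg_right _ hg.le
    linarith

/-- `s (d - l) ≤ 2 d C y`. -/
lemma s_mul_le (c : KA A n x y g i0 k p m d m' l t) {P : X}
    (hP : Phi A n x g P ≤ 1776 * k ^ 2 * g * y) :
    ((x : ℤ) + y) * (d - l) ≤ 2 * d * (1776 * k ^ 2 * y) := by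
  have h1 := c.sys.Phi_ge c.hmZ c.hm0 c.T P
  have hg := c.sys.qg
  have hd : (0 : ℚ) < d := by
    have h2 := c.hp.pos
    have h3 := c.hpd
    have : 0 < d := by omega
    exact_mod_cast this
  have h2 : 2 * ((d : ℚ) * Phi A n x g P) ≤ 2 * (d * (1776 * k ^ 2 * g * y)) := by
    have := mul_le_mul_of_nonneg_left hP hd.le
    linarith
  have h3 : (g : ℚ) * (((x : ℚ) + y) * (d - l)) ≤ g * (2 * d * (1776 * k ^ 2 * y)) := by
    linarith
  have h4 := le_of_mul_le_mul_left h3 hg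
  exact_mod_cast h4

/-- Row R2. -/
theorem r2_le (c : KA A n x y g i0 k p m d m' l t) (hp16 : 16 ≤ p) :
    g * y + 1 ≤ 2000000 * k ^ 4 * p := by
  have hk2 : 2 ≤ k := c.hk2
  have hp2 : 2 ≤ p := c.hp.two_le
  have hk3le : k ^ 3 ≤ k ^ 4 := Nat.pow_le_pow_right (by omega) (by norm_num)
  have hk1le : k ≤ k ^ 4 := by
    calc k = k ^ 1 := (pow_one k).symm
      _ ≤ k ^ 4 := Nat.pow_le_pow_right (by omega) (by norm_num)
  have hkp1 : k * p ≤ k ^ 4 * p := Nat.mul_le_mul_right _ hk1le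
  have hkp3 : k ^ 3 * p ≤ k ^ 4 * p := Nat.mul_le_mul_right _ hk3le
  have hkp0 : 1 ≤ k ^ 4 * p := Nat.mul_pos (by positivity) (by omega)
  have hgoal : 2000000 * k ^ 4 * p = 2000000 * (k ^ 4 * p) := by ring
  rw [hgoal]
  rcases lt_or_ge (g * y + 1) (8 * (k * p)) with h8 | h8
  · omega
  obtain ⟨P, hP⟩ := c.generic hp16 h8
  have hPhi := c.s_mul_le hP
  obtain ⟨P0, hP0⟩ := c.out
  have hy := c.sys.hy
  have hg := c.sys.hg
  rcases lt_or_ge (x + y) (4 * (1776 * k ^ 2) * y) with h4 | h4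
  · -- `s` small
    have h5 := c.y_lt
    have h6 : y * (g * y + 1) < y * (7104 * (k ^ 3 * p)) := by
      calc y * (g * y + 1) < (x + y) * (k * p) := h5
        _ ≤ (4 * (1776 * k ^ 2) * y) * (k * p) := Nat.mul_le_mul_right _ h4.le
        _ = y * (7104 * (k ^ 3 * p)) := by ring
    have h7 := lt_of_mul_lt_mul_left h6 (Nat.zero_le _)
    omega
  · have he := c.e_eq
    obtain ⟨e, hedef⟩ : ∃ e : ℤ, e = (((A i0)ᶜ.card : ℕ) : ℤ) := ⟨_, rfl⟩
    have hyZ : (0 : ℤ) < y := by exact_mod_cast hy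
    have hgZ : (0 : ℤ) < g := by exact_mod_cast hg
    have hpZ : (0 : ℤ) < p := by exact_mod_cast c.hp.pos
    have hpdZ : (p : ℤ) ≤ d := by exact_mod_cast c.hpd
    have hxZ : (x : ℤ) = y + m * p := by rw [c.hx]; push_cast; ring
    have hes : (m : ℤ) * e ≤ ((x : ℤ) + y) * k := by
      have h5 : (p : ℤ) * (m * e) ≤ p * (((x : ℤ) + y) * k) := by
        rw [← hedef] at he
        have h6 : (0 : ℤ) < (y : ℤ) * (g * y + 1) := by positivity
        linarith
      exact le_of_mul_le_mul_left h5 hpZ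
    have hm1 : (1 : ℤ) ≤ m := by exact_mod_cast c.hm1
    have hmk : (m : ℤ) ≤ k := by exact_mod_cast c.hmk.le
    have h4Z : 4 * (1776 * (k : ℤ) ^ 2) * y ≤ (x : ℤ) + y := by exact_mod_cast h4
    rcases lt_or_ge ((g : ℤ) * y) (4 * e) with h7 | h7
    · -- `g y < 4 e ≤ 8 p k`
      have h8' : (m : ℤ) * (g * y) ≤ m * (8 * (k * p)) := by
        have h9 : (x : ℤ) + y ≤ 2 * (m * p) := by
          have h10 : 4 * (y : ℤ) ≤ 4 * (1776 * (k : ℤ) ^ 2) * y := by
            have hk1 : (1 : ℤ) ≤ (k : ℤ) ^ 2 := one_le_pow₀ (by linarith)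
            have : 4 * 1 * (y : ℤ) ≤ 4 * (1776 * (k : ℤ) ^ 2) * y := by
              apply mul_le_mul_of_nonneg_right _ hyZ.le
              linarith
            linarith
          linarith
        have h11 : ((x : ℤ) + y) * k ≤ 2 * (m * p) * k :=
          mul_le_mul_of_nonneg_right h9 (by linarith)
        have h12 : (m : ℤ) * (g * y) ≤ m * (4 * e) :=
          mul_le_mul_of_nonneg_left h7.le (by linarith)
        linarith
      have h13 : (g : ℤ) * y ≤ 8 * (k * p) := le_of_mul_le_mul_left h8' (by linarith)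
      have h14 : g * y ≤ 8 * (k * p) := by exact_mod_cast h13
      omega
    · have hF := c.sys.F3 c.hmZ c.hm0 c.T i0 hP0 (by rw [← hedef]; linarith)
      rw [← hedef] at hF
      have h5 := r2_arithK (s := (x : ℤ) + y) (y := y) (g := g) (m := m) (p := p) (d := d)
        (k := k) (e := e) (l := l) (by linarith [mul_pos (lt_of_lt_of_le one_pos hm1) hpZ]) hyZ
        hgZ hm1 hmk hpZ hpdZ c.T.l0 c.T.l1 (by rw [hxZ]; ring) hes hPhi h4Z h7 hF
      have h6 : g * y ≤ 909312 * k ^ 4 * p := by exact_mod_cast h5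
      have h7' : 909312 * k ^ 4 * p = 909312 * (k ^ 4 * p) := by ring
      omega

end KA

end Pool.Agent.Lib.MP_93e743_co
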